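import Pool.Agent.Helper51.LT.St
import Pool.Agent.Helper61.LT.M_ST0

/-!
# Isolated large coefficients (MP_d6acc2_an, bounded univalent functions): definitions, robustness,
and the elementary consequence for linear relations
-/

set_option autoImplicit false

namespace Pool.Agent.Helper38.UB

open Complex MeasureTheory Set Metric Filter Topology
open scoped Real ENNReal
open Pool.Agent.Helper60.Rel (tc ClassS)
open Pool.Agent.Helper51.LT

/-- the class of the gliding hump -/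
def PB (f : ℂ → ℂ) : Prop :=
  (∃ R : ℝ, 1 < R ∧ Un f (ball 0 R)) ∧ f 0 = 0 ∧ ∀ z : ℂ, ‖z‖ ≤ 1 → ‖f z‖ < 2

/-- a large coefficient which is isolated -/
def QI (α : ℝ) (j : ℕ) (F : ℂ → ℂ) : Prop :=
  ∃ T : ℕ, 2 * j + 1 ≤ T ∧ (j : ℝ) * (T : ℝ) ^ α < ‖tc F T‖ ∧
    ∀ n : ℕ, n ≠ T → T ≤ n + j → n ≤ T + j → (j : ℝ) * ‖tc F n‖ < ‖tc F T‖

theorem qi_rob (hTcf : StTcf) {α : ℝ} {j T : ℕ} {f : ℂ → ℂ}
    (hf : DifferentiableOn ℂ f (ball 0 1)) (hT : 2 * j + 1 ≤ T)
    (h1 : ((j : ℝ) + 1) * (T : ℝ) ^ α ≤ ‖tc f T‖)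
    (h2 : ∀ n : ℕ, n ≠ T → T ≤ n + j → n ≤ T + j →
      2 * ((j : ℝ) + 1) * ‖tc f n‖ ≤ ‖tc f T‖) : Rob (QI α j) f := by
  have hTpos : (0 : ℝ) < (T : ℝ) := by
    have : 0 < T := by omega
    exact_mod_cast this
  have hTa : 0 < (T : ℝ) ^ α := Real.rpow_pos_of_pos hTpos _
  have hj0 : (0 : ℝ) ≤ j := Nat.cast_nonneg j
  set A : ℝ := ‖tc f T‖ with hA
  have hApos : 0 < A := lt_of_lt_of_le (by positivity) h1
  set e : ℝ := A / (4 * ((j : ℝ) + 1)) with he
  have he4 : 4 * ((j : ℝ) + 1) * e = A := by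
    rw [he]; field_simp
  have he0 : 0 < e := by rw [he]; positivity
  refine ⟨e / 2 ^ (T + j), by positivity, 1 / 2, by norm_num, by norm_num, ?_⟩
  intro F hF hclose
  have hdiff : ∀ n : ℕ, n ≤ T + j → ‖tc F n - tc f n‖ ≤ e := by
    intro n hn
    have h3 := Pool.Agent.Helper61.LT.tc_close hTcf hF hf n hclose
    refine h3.trans ?_
    rw [div_mul_eq_mul_div, div_le_iff₀ (by positivity)]
    exact mul_le_mul_of_nonneg_left (pow_le_pow_right₀ (by norm_num) hn) he0.le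
  have hFT : A - e ≤ ‖tc F T‖ := by
    have h3 := hdiff T (by omega)
    have h4 : ‖tc f T‖ ≤ ‖tc F T‖ + ‖tc F T - tc f T‖ := by
      have := norm_sub_le (tc F T) (tc F T - tc f T)
      simpa using this
    linarith
  have hJ : (1 : ℝ) ≤ (j : ℝ) + 1 := by linarith
  refine ⟨T, hT, ?_, ?_⟩
  · refine lt_of_lt_of_le ?_ hFT
    have h5 : ((j : ℝ) + 1) * ((j : ℝ) * (T : ℝ) ^ α) ≤ j * A := by nlinarith
    have h6 : ((j : ℝ) + 1) * (A - e) = ((j : ℝ) + 1) * A - A / 4 := by linarith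
    have h7 : ((j : ℝ) + 1) * ((j : ℝ) * (T : ℝ) ^ α) < ((j : ℝ) + 1) * (A - e) := by
      rw [h6]; linarith
    exact lt_of_mul_lt_mul_left h7 (by linarith)
  · intro n hn hn1 hn2
    refine lt_of_lt_of_le ?_ hFT
    have h3 := h2 n hn hn1 hn2
    have h4 := hdiff n hn2
    have h5 : ‖tc F n‖ ≤ ‖tc f n‖ + e := by
      have := norm_add_le (tc f n) (tc F n - tc f n)
      have h6 : tc f n + (tc F n - tc f n) = tc F n := by ring
      rw [h6] at this
      linarith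
    have h6 : ((j : ℝ) + 1) * ‖tc F n‖ ≤ 3 / 4 * A := by
      have : ((j : ℝ) + 1) * ‖tc F n‖ ≤ ((j : ℝ) + 1) * (‖tc f n‖ + e) :=
        mul_le_mul_of_nonneg_left h5 (by linarith)
      linarith
    have h7 : (j : ℝ) * ‖tc F n‖ ≤ ((j : ℝ) + 1) * ‖tc F n‖ := by
      have := norm_nonneg (tc F n)
      linarith
    have h8 : e ≤ A / 4 := by nlinarith
    have h9 : 0 ≤ ‖tc F n‖ := norm_nonneg _
    rcases hj0.eq_or_lt with h0 | h0
    · rw [← h0, zero_mul]
      linarith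
    · have h10 : e < A / 4 := by nlinarith
      linarith

/-- An isolated large coefficient defeats all relations of length `m ≤ j / 2`: no condition on
the last coefficient of the relation is needed. -/
theorem qi_rel {a : ℕ → ℂ} {T j m : ℕ} (hm : 2 * m ≤ j) (hT : 2 * j + 1 ≤ T) (hj : 1 ≤ j)
    (h : ∀ n : ℕ, n ≠ T → T ≤ n + j → n ≤ T + j → (j : ℝ) * ‖a n‖ < ‖a T‖)
    (c : ℕ → ℂ) (hc : c 0 = 1) {δ : ℝ}
    (hrel : ∀ r : ℕ, r ≤ m → ‖∑ i ∈ Finset.range (m + 1), c i * a (T - m + r + i)‖ ≤ δ) :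
    ‖a T‖ ≤ 2 * δ := by
  classical
  obtain ⟨i₀, hi₀, hmax⟩ := Finset.exists_max_image (Finset.range (m + 1)) (fun i => ‖c i‖)
    ⟨0, by simp⟩
  rw [Finset.mem_range] at hi₀
  set C : ℝ := ‖c i₀‖ with hC
  have hC1 : 1 ≤ C := by
    have := hmax 0 (by simp)
    rw [hc, norm_one] at this
    exact this
  have hr := hrel (m - i₀) (by omega)
  have hsplit := Finset.add_sum_erase (Finset.range (m + 1))
    (fun i => c i * a (T - m + (m - i₀) + i)) (Finset.mem_range.2 hi₀)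
  have hidx : T - m + (m - i₀) + i₀ = T := by omega
  simp only [hidx] at hsplit
  rw [← hsplit] at hr
  have hjr : (0 : ℝ) < j := by exact_mod_cast hj
  have hother : (j : ℝ) * ‖∑ i ∈ (Finset.range (m + 1)).erase i₀, c i * a (T - m + (m - i₀) + i)‖
      ≤ m * (C * ‖a T‖) := by
    have h1 : ‖∑ i ∈ (Finset.range (m + 1)).erase i₀, c i * a (T - m + (m - i₀) + i)‖
        ≤ ∑ i ∈ (Finset.range (m + 1)).erase i₀, ‖c i * a (T - m + (m - i₀) + i)‖ :=
      norm_sum_le _ _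
    have h2 : ∀ i ∈ (Finset.range (m + 1)).erase i₀,
        (j : ℝ) * ‖c i * a (T - m + (m - i₀) + i)‖ ≤ C * ‖a T‖ := by
      intro i hi
      rw [Finset.mem_erase, Finset.mem_range] at hi
      have h3 := h (T - m + (m - i₀) + i) (by omega) (by omega) (by omega)
      have h4 := hmax i (Finset.mem_range.2 hi.2)
      rw [norm_mul]
      calc (j : ℝ) * (‖c i‖ * ‖a (T - m + (m - i₀) + i)‖)
          = ‖c i‖ * ((j : ℝ) * ‖a (T - m + (m - i₀) + i)‖) := by ring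
        _ ≤ C * ‖a T‖ := mul_le_mul h4 h3.le (by positivity) (by linarith)
    calc (j : ℝ) * ‖∑ i ∈ (Finset.range (m + 1)).erase i₀, c i * a (T - m + (m - i₀) + i)‖
        ≤ j * ∑ i ∈ (Finset.range (m + 1)).erase i₀, ‖c i * a (T - m + (m - i₀) + i)‖ :=
          mul_le_mul_of_nonneg_left h1 hjr.le
      _ = ∑ i ∈ (Finset.range (m + 1)).erase i₀, j * ‖c i * a (T - m + (m - i₀) + i)‖ := by
          rw [Finset.mul_sum]
      _ ≤ ∑ i ∈ (Finset.range (m + 1)).erase i₀, C * ‖a T‖ := Finset.sum_le_sum h2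
      _ = m * (C * ‖a T‖) := by
          rw [Finset.sum_const, Finset.card_erase_of_mem (Finset.mem_range.2 hi₀),
            Finset.card_range, nsmul_eq_mul]
          congr 2
  have hmain : C * ‖a T‖ ≤ δ
      + ‖∑ i ∈ (Finset.range (m + 1)).erase i₀, c i * a (T - m + (m - i₀) + i)‖ := by
    have h1 : ‖c i₀ * a T‖ ≤ ‖c i₀ * a T
        + ∑ i ∈ (Finset.range (m + 1)).erase i₀, c i * a (T - m + (m - i₀) + i)‖
        + ‖∑ i ∈ (Finset.range (m + 1)).erase i₀, c i * a (T - m + (m - i₀) + i)‖ := by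
      have := norm_sub_le (c i₀ * a T
        + ∑ i ∈ (Finset.range (m + 1)).erase i₀, c i * a (T - m + (m - i₀) + i))
        (∑ i ∈ (Finset.range (m + 1)).erase i₀, c i * a (T - m + (m - i₀) + i))
      rwa [add_sub_cancel_right] at this
    rw [norm_mul] at h1
    linarith
  have hm' : 2 * (m : ℝ) ≤ j := by exact_mod_cast hm
  have hCa : 0 ≤ C * ‖a T‖ := by positivity
  have h3 : (j : ℝ) * (C * ‖a T‖) ≤ j * δ + m * (C * ‖a T‖) := by
    have := mul_le_mul_of_nonneg_left hmain hjr.le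
    rw [mul_add] at this
    linarith
  have h4 : (j : ℝ) * (C * ‖a T‖) ≤ j * (2 * δ) := by nlinarith
  have h5 : C * ‖a T‖ ≤ 2 * δ := le_of_mul_le_mul_left h4 hjr
  have h6 : ‖a T‖ ≤ C * ‖a T‖ := by
    have := norm_nonneg (a T)
    nlinarith
  linarith

end Pool.Agent.Helper38.UB
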