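import Pool.Agent.Helper38.UB.Small
import Pool.Agent.Helper51.LT.All

/-!
# Isolated large coefficients: a bounded univalent function with isolated peaks, and the exact
exponent for bounded functions in the class `S`
-/

set_option autoImplicit false

namespace Pool.Agent.Helper38.UB

open Complex MeasureTheory Set Metric Filter Topology
open scoped Real ENNReal
open Pool.Agent.Helper60.Rel (tc ClassS)
open Pool.Agent.Helper51.LT

theorem core (al : ℕ → ℝ)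
    (step : ∀ f : ℂ → ℂ, PB f → ∀ (η r : ℝ) (j : ℕ), 0 < η → r < 1 →
      ∃ f₁, PB f₁ ∧ (∀ z : ℂ, ‖z‖ ≤ r → ‖f₁ z - f z‖ ≤ η) ∧ Rob (QI (al j) j) f₁) :
    ∃ f : ℂ → ℂ, ClassS f ∧ (∀ z ∈ ball (0 : ℂ) 1, ‖f z‖ ≤ 4) ∧
      ∀ j : ℕ, ∃ T : ℕ, 2 * j + 1 ≤ T ∧ (j : ℝ) * (T : ℝ) ^ al j < 2 * ‖tc f T‖ ∧
        ∀ n : ℕ, n ≠ T → T ≤ n + j → n ≤ T + j → (j : ℝ) * ‖tc f n‖ < ‖tc f T‖ := by
  have hdiff : ∀ f, PB f → DifferentiableOn ℂ f (ball 0 1) := by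
    rintro f ⟨⟨R, hR, hf, -⟩, -, -⟩
    exact hf.mono (ball_subset_ball hR.le)
  have hid : PB (fun z : ℂ => z) := by
    refine ⟨⟨2, by norm_num, differentiableOn_id, fun x _ y _ h => h⟩, rfl, ?_⟩
    intro z hz
    show ‖z‖ < 2
    linarith
  have hrho : ∀ j : ℕ, 0 ≤ 1 - 1 / ((j : ℝ) + 2) ∧ 1 - 1 / ((j : ℝ) + 2) < 1 := by
    intro j
    have hj : (0 : ℝ) ≤ j := Nat.cast_nonneg j
    have h2 : 0 < 1 / ((j : ℝ) + 2) := by positivity
    have h3 : 1 / ((j : ℝ) + 2) ≤ 1 := by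
      rw [div_le_one (by positivity)]
      linarith
    constructor <;> linarith
  obtain ⟨F, hF, hq, hclose, s, hs, hlim⟩ := zGH PB
    (fun j F => QI (al j) j F ∧ InjOn F (closedBall 0 (1 - 1 / ((j : ℝ) + 2)))) (fun z : ℂ => z)
    hdiff hid (by
      intro f hf η r j hη hr
      obtain ⟨f₁, h1, h2, h3⟩ := step f hf η r j hη hr
      refine ⟨f₁, h1, h2, Pool.Agent.Helper23.LT.rob_and h3 ?_⟩
      obtain ⟨⟨R, hR, hU⟩, -, -⟩ := h1
      exact zInj f₁ R _ hR hU (hrho j).1 (hrho j).2) (1 / 4) (by norm_num)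
  have hinj : InjOn F (ball 0 1) := by
    intro z hz w hw h
    rw [mem_ball_zero_iff] at hz hw
    have hm : 0 < 1 - max ‖z‖ ‖w‖ := by
      have := max_lt hz hw
      linarith
    obtain ⟨j, hj⟩ := exists_nat_one_div_lt hm
    have hj2 : 1 / ((j : ℝ) + 2) ≤ 1 / ((j : ℝ) + 1) := by
      apply one_div_le_one_div_of_le
      · positivity
      · linarith
    refine (hq j).2 ?_ ?_ h
    · rw [mem_closedBall_zero_iff]
      have := le_max_left ‖z‖ ‖w‖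
      linarith
    · rw [mem_closedBall_zero_iff]
      have := le_max_right ‖z‖ ‖w‖
      linarith
  have hF0 : F 0 = 0 := by
    have h1 := hlim 0 (by simp)
    have h2 : (fun k => s k 0) = fun _ => (0 : ℂ) := by
      funext k
      exact (hs k).2.1
    rw [h2] at h1
    exact (tendsto_nhds_unique h1 tendsto_const_nhds)
  have hFb : ∀ z ∈ ball (0 : ℂ) 1, ‖F z‖ ≤ 2 := by
    intro z hz
    apply le_of_tendsto (hlim z hz).norm
    filter_upwards with k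
    exact ((hs k).2.2 z (by rw [mem_ball_zero_iff] at hz; exact hz.le)).le
  have hFd : DifferentiableAt ℂ F 0 :=
    hF.differentiableAt (isOpen_ball.mem_nhds (by simp))
  have ha : ‖deriv F 0 - 1‖ ≤ 1 / 2 := by
    have hd : DiffContOnCl ℂ (fun z => F z - z) (ball 0 (1 / 2)) := by
      apply DifferentiableOn.diffContOnCl
      rw [closure_ball _ (by norm_num)]
      exact (hF.mono (closedBall_subset_ball (by norm_num))).sub differentiableOn_id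
    have h := Complex.norm_deriv_le_of_forall_mem_sphere_norm_le (by norm_num : (0 : ℝ) < 1 / 2) hd
      (C := 1 / 4) (by
        intro z hz
        refine hclose z ?_
        rw [mem_sphere_zero_iff_norm] at hz
        exact hz.le)
    have h2 : deriv (fun z => F z - z) 0 = deriv F 0 - 1 := by
      have := (hFd.hasDerivAt.sub (hasDerivAt_id' (0 : ℂ))).deriv
      exact this
    rw [h2] at h
    linarith
  set a := deriv F 0 with hadef
  have ha2 : ‖a‖ ≤ 2 := by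
    have h1 : ‖a‖ ≤ ‖a - 1‖ + ‖(1 : ℂ)‖ := by
      have := norm_add_le (a - 1) 1
      simpa using this
    rw [norm_one] at h1
    linarith
  have ha12 : 1 / 2 ≤ ‖a‖ := by
    have h1 : ‖(1 : ℂ)‖ ≤ ‖a‖ + ‖a - 1‖ := by
      have := norm_sub_le a (a - 1)
      simpa using this
    rw [norm_one] at h1
    linarith
  have hapos : 0 < ‖a‖ := by linarith
  have ha0 : a ≠ 0 := norm_pos_iff.1 hapos
  refine ⟨fun z => a⁻¹ * F z, ⟨?_, ?_, ?_, ?_⟩, ?_, ?_⟩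
  · exact hF.const_mul _
  · intro z hz w hw h
    exact hinj hz hw (mul_left_cancel₀ (inv_ne_zero ha0) h)
  · simp [hF0]
  · have := (hFd.hasDerivAt.const_mul a⁻¹).deriv
    rw [this, ← hadef]
    exact inv_mul_cancel₀ ha0
  · intro z hz
    show ‖a⁻¹ * F z‖ ≤ 4
    rw [norm_mul, norm_inv, inv_mul_eq_div, div_le_iff₀ hapos]
    have := hFb z hz
    linarith
  · intro j
    obtain ⟨T, hT, hlt, hiso⟩ := (hq j).1
    have htc : ∀ n, ‖tc (fun z => a⁻¹ * F z) n‖ = ‖a‖⁻¹ * ‖tc F n‖ := by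
      intro n
      rw [hTcd.2.2 F a⁻¹ n hF, norm_mul, norm_inv]
    refine ⟨T, hT, ?_, ?_⟩
    · rw [htc]
      have h1 : ‖tc F T‖ ≤ 2 * (‖a‖⁻¹ * ‖tc F T‖) := by
        have h2 : (1 : ℝ) / 2 ≤ ‖a‖⁻¹ := by
          rw [one_div, inv_le_inv₀ (by norm_num) hapos]
          exact ha2
        have h3 := norm_nonneg (tc F T)
        nlinarith
      exact lt_of_lt_of_le hlt h1
    · intro n hn h1 h2
      have h3 := hiso n hn h1 h2
      rw [htc, htc]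
      have h4 : 0 < ‖a‖⁻¹ := inv_pos.2 hapos
      calc (j : ℝ) * (‖a‖⁻¹ * ‖tc F n‖) = ‖a‖⁻¹ * ((j : ℝ) * ‖tc F n‖) := by ring
        _ < ‖a‖⁻¹ * ‖tc F T‖ := mul_lt_mul_of_pos_left h3 h4

/-- a bounded function in `S` with isolated peaks of nearly maximal size -/
theorem peaks : ∃ f : ℂ → ℂ, ClassS f ∧ (∀ z ∈ ball (0 : ℂ) 1, ‖f z‖ ≤ 4) ∧
      ∀ j : ℕ, ∃ T : ℕ, 2 * j + 1 ≤ T ∧
        (j : ℝ) * (T : ℝ) ^ (Bb - 1 - 1 / ((j : ℝ) + 1)) < 2 * ‖tc f T‖ ∧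
        ∀ n : ℕ, n ≠ T → T ≤ n + j → n ≤ T + j → (j : ℝ) * ‖tc f n‖ < ‖tc f T‖ := by
  apply core (fun j => Bb - 1 - 1 / ((j : ℝ) + 1))
  intro f hf η r j hη hr
  have hj : 0 < 1 / ((j : ℝ) + 1) := by positivity
  rcases zBb_nonneg.eq_or_lt with h0 | h0
  · apply step_small zKoe zTcf _ hf j hη hr
    show Bb - 1 - 1 / ((j : ℝ) + 1) < -1
    linarith
  · have hγ0 : 0 < max (Bb / 2) (Bb - 1 / ((j : ℝ) + 1) / 2) :=
      lt_of_lt_of_le (by linarith) (le_max_left _ _)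
    have hγB : max (Bb / 2) (Bb - 1 / ((j : ℝ) + 1) / 2) < Bb :=
      max_lt (by linarith) (by linarith)
    have hγα : 1 + (Bb - 1 - 1 / ((j : ℝ) + 1)) < max (Bb / 2) (Bb - 1 / ((j : ℝ) + 1) / 2) :=
      lt_of_lt_of_le (by linarith) (le_max_right _ _)
    exact step_big zHump zHar (Pool.Agent.Helper62.LT.hPol zD2) zCJU zTcf hTcd zCJC hγ0 hγα
      (HU_of_lt zNn hγB) hf j hη hr

/-- one bounded function in `S` defeats all relations -/
theorem lower : ∃ f : ℂ → ℂ, ClassS f ∧ (∀ z ∈ ball (0 : ℂ) 1, ‖f z‖ ≤ 4) ∧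
    ∀ (m : ℕ) (α K : ℝ), α < -1 + Bb → ∃ n : ℕ, 1 ≤ n ∧ ∀ c : ℕ → ℂ, c 0 = 1 →
      ∃ j : ℕ, j ≤ m ∧ K * (n : ℝ) ^ α < ‖∑ i ∈ Finset.range (m + 1), c i * tc f (n + j + i)‖ := by
  obtain ⟨f, hf, hb, hp⟩ := peaks
  refine ⟨f, hf, hb, ?_⟩
  intro m α K hα
  by_contra hc
  push Not at hc
  -- the index
  obtain ⟨j₁, hj₁⟩ := exists_nat_one_div_lt (show (0 : ℝ) < -1 + Bb - α by linarith)
  obtain ⟨j₂, hj₂⟩ := exists_nat_ge (4 * |K| * 2 ^ |α|)
  set j : ℕ := max (max j₁ j₂) (2 * m + 1) with hj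
  have hjj₁ : j₁ ≤ j := (le_max_left _ _).trans (le_max_left _ _)
  have hjj₂ : j₂ ≤ j := (le_max_right _ _).trans (le_max_left _ _)
  have hjm : 2 * m + 1 ≤ j := le_max_right _ _
  have hj0 : (0 : ℝ) ≤ j := Nat.cast_nonneg j
  obtain ⟨T, hT, hbig, hiso⟩ := hp j
  have hT1 : (1 : ℝ) ≤ T := by
    have : 1 ≤ T := by omega
    exact_mod_cast this
  have hTpos : (0 : ℝ) < T := by linarith
  obtain ⟨n, hn⟩ : ∃ n : ℕ, n = T - m := ⟨_, rfl⟩
  have hn1 : 1 ≤ n := by omega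
  have hn1' : (1 : ℝ) ≤ n := by exact_mod_cast hn1
  obtain ⟨c, hc0, hrel⟩ := hc n hn1
  have hrel' : ∀ r : ℕ, r ≤ m → ‖∑ i ∈ Finset.range (m + 1), c i * tc f (T - m + r + i)‖
      ≤ |K| * (n : ℝ) ^ α := by
    intro r hr
    rw [← hn]
    refine (hrel r hr).trans (mul_le_mul_of_nonneg_right (le_abs_self K) ?_)
    exact Real.rpow_nonneg (by linarith) _
  have h1 : ‖tc f T‖ ≤ 2 * (|K| * (n : ℝ) ^ α) :=
    qi_rel (by omega : 2 * m ≤ j) hT (by omega) hiso c hc0 hrel'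
  -- n^α ≤ 2^|α| T^α
  have h2 : (n : ℝ) ^ α ≤ 2 ^ |α| * (T : ℝ) ^ α := by
    have hnT : (n : ℝ) ≤ T := by
      have : n ≤ T := by omega
      exact_mod_cast this
    have hTn : (T : ℝ) ≤ 2 * n := by
      have : T ≤ 2 * n := by omega
      exact_mod_cast this
    rcases le_or_gt 0 α with h | h
    · have e1 : (n : ℝ) ^ α ≤ (T : ℝ) ^ α := Real.rpow_le_rpow (by linarith) hnT h
      have e2 : (1 : ℝ) ≤ 2 ^ |α| := Real.one_le_rpow (by norm_num) (abs_nonneg α)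
      exact e1.trans (le_mul_of_one_le_left (Real.rpow_nonneg hTpos.le _) e2)
    · have e1 : (n : ℝ) ^ α ≤ ((T : ℝ) / 2) ^ α :=
        Real.rpow_le_rpow_of_nonpos (by positivity) (by linarith) h.le
      refine e1.trans (le_of_eq ?_)
      rw [Real.div_rpow hTpos.le (by norm_num), abs_of_neg h, Real.rpow_neg (by norm_num),
        div_eq_mul_inv, mul_comm]
  -- T^α ≤ T^(al j)
  have h3 : (T : ℝ) ^ α ≤ (T : ℝ) ^ (Bb - 1 - 1 / ((j : ℝ) + 1)) := by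
    apply Real.rpow_le_rpow_of_exponent_le hT1
    have e1 : 1 / ((j : ℝ) + 1) ≤ 1 / ((j₁ : ℝ) + 1) := by
      apply one_div_le_one_div_of_le (by positivity)
      have : (j₁ : ℝ) ≤ j := by exact_mod_cast hjj₁
      linarith
    linarith
  have hTa : 0 < (T : ℝ) ^ α := Real.rpow_pos_of_pos hTpos _
  have h4 : (j : ℝ) * (T : ℝ) ^ α < 4 * |K| * 2 ^ |α| * (T : ℝ) ^ α := by
    calc (j : ℝ) * (T : ℝ) ^ α ≤ j * (T : ℝ) ^ (Bb - 1 - 1 / ((j : ℝ) + 1)) :=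
          mul_le_mul_of_nonneg_left h3 hj0
      _ < 2 * ‖tc f T‖ := hbig
      _ ≤ 2 * (2 * (|K| * (2 ^ |α| * (T : ℝ) ^ α))) := by
          have : |K| * (n : ℝ) ^ α ≤ |K| * (2 ^ |α| * (T : ℝ) ^ α) :=
            mul_le_mul_of_nonneg_left h2 (abs_nonneg K)
          linarith
      _ = 4 * |K| * 2 ^ |α| * (T : ℝ) ^ α := by ring
  have h5 : (j : ℝ) < 4 * |K| * 2 ^ |α| := lt_of_mul_lt_mul_right h4 hTa.le
  have h6 : (j₂ : ℝ) ≤ j := by exact_mod_cast hjj₂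
  linarith

/-- the coefficients of bounded functions -/
theorem coeff_le {f : ℂ → ℂ} (hf : ClassS f) {M : ℝ} (hM : ∀ z ∈ ball (0 : ℂ) 1, ‖f z‖ ≤ M)
    {α : ℝ} (hα : -1 + Bb < α) : ∃ K : ℝ, 0 ≤ K ∧ ∀ n : ℕ, 1 ≤ n → ‖tc f n‖ ≤ K * (n : ℝ) ^ α := by
  have hBα : Bb < 1 + α := by linarith
  obtain ⟨β, hβ, hβα⟩ := exists_lt_of_csInf_lt (s := {β : ℝ | Bd β}) ⟨1 / 2, Bd_half zHalf⟩ hBα
  have hβ0 : 0 ≤ β := zNn β hβ
  obtain ⟨C, hC⟩ := (Bd_iff β).1 hβ f ⟨hf.1, hf.2.1, M, hM⟩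
  have hfd : DifferentiableOn ℂ (deriv f) (ball 0 1) := hf.1.deriv isOpen_ball
  have hC0 : 0 ≤ |C| := abs_nonneg C
  refine ⟨max |C| ‖tc f 1‖, le_trans hC0 (le_max_left _ _), ?_⟩
  intro n hn
  rcases Nat.lt_or_ge n 2 with hlt | hge
  · have h1 : n = 1 := by omega
    rw [h1, Nat.cast_one, Real.one_rpow, mul_one]
    exact le_max_right _ _
  -- radius
  have hn2 : (2 : ℝ) ≤ n := by exact_mod_cast hge
  have hn0 : (0 : ℝ) < n := by linarith
  set r : ℝ := 1 - 1 / (n : ℝ) with hr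
  have hinv : 1 / (n : ℝ) ≤ 1 / 2 := one_div_le_one_div_of_le (by norm_num) hn2
  have hinv0 : 0 < 1 / (n : ℝ) := by positivity
  have hr0 : 0 < r := by rw [hr]; linarith
  have hr1 : r < 1 := by rw [hr]; linarith
  obtain ⟨k, hk⟩ : ∃ k : ℕ, n = k + 1 := ⟨n - 1, by omega⟩
  have hk0 : (0 : ℝ) < k := by
    have : 0 < k := by omega
    exact_mod_cast this
  have hnk : (n : ℝ) = k + 1 := by rw [hk]; push_cast; ring
  have htc : tc (deriv f) k = ((k : ℂ) + 1) * tc f (k + 1) := hTcd.1 f k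
  have hform := zTcf (deriv f) r k hr0 (hfd.mono (closedBall_subset_ball hr1)) ⟨1, hr1, hfd⟩
  have hI : ‖∫ t in (0 : ℝ)..(2 * π), deriv f (circleMap 0 r t) * (circleMap 0 r t ^ k)⁻¹‖
      ≤ ∫ t in (0 : ℝ)..(2 * π), ‖deriv f (circleMap 0 r t) * (circleMap 0 r t ^ k)⁻¹‖ :=
    intervalIntegral.norm_integral_le_integral_norm (by positivity)
  have hnorm : ∀ t : ℝ, ‖deriv f (circleMap 0 r t) * (circleMap 0 r t ^ k)⁻¹‖
      = ‖deriv f (r * exp (t * I))‖ * (r ^ k)⁻¹ := by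
    intro t
    rw [norm_mul, norm_inv, norm_pow, norm_circleMap_zero, abs_of_pos hr0]
    congr 3
    simp [circleMap]
  rw [show (fun t : ℝ => ‖deriv f (circleMap 0 r t) * (circleMap 0 r t ^ k)⁻¹‖)
    = fun t : ℝ => ‖deriv f (r * exp (t * I))‖ * (r ^ k)⁻¹ from funext hnorm,
    intervalIntegral.integral_mul_const] at hI
  have hCr := hC r hr0 hr1
  have hrk : (r ^ k)⁻¹ ≤ 3 := by
    have hkne : (k : ℝ) ≠ 0 := hk0.ne'
    have hkne1 : (k : ℝ) + 1 ≠ 0 := by linarith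
    have h0 : r = k / ((k : ℝ) + 1) := by
      rw [hr, hnk, eq_div_iff hkne1, sub_mul, one_mul, one_div, inv_mul_cancel₀ hkne1]
      ring
    have h1 : r⁻¹ = 1 + 1 / (k : ℝ) := by
      rw [h0, inv_div, add_div, div_self hkne]
    have h2 : 1 + 1 / (k : ℝ) ≤ Real.exp (1 / (k : ℝ)) := by
      have := Real.add_one_le_exp (1 / (k : ℝ))
      linarith
    rw [← inv_pow, h1]
    calc (1 + 1 / (k : ℝ)) ^ k ≤ (Real.exp (1 / (k : ℝ))) ^ k :=
          pow_le_pow_left₀ (by positivity) h2 _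
      _ = Real.exp 1 := by
          rw [← Real.exp_nat_mul]
          congr 1
          field_simp
      _ ≤ 3 := by
          have := Real.exp_one_lt_d9
          linarith
  have hrk0 : 0 ≤ (r ^ k)⁻¹ := by positivity
  have hpow : (1 - r) ^ (-β) = (n : ℝ) ^ β := by
    have h1 : 1 - r = (n : ℝ)⁻¹ := by rw [hr]; ring
    rw [h1, Real.inv_rpow hn0.le, Real.rpow_neg hn0.le, inv_inv]
  rw [hpow] at hCr
  have hnβ : 0 ≤ (n : ℝ) ^ β := Real.rpow_nonneg hn0.le _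
  have hI2 : ‖∫ t in (0 : ℝ)..(2 * π), deriv f (circleMap 0 r t) * (circleMap 0 r t ^ k)⁻¹‖
      ≤ |C| * (n : ℝ) ^ β * 3 := by
    refine hI.trans ?_
    have h1 : C * (n : ℝ) ^ β ≤ |C| * (n : ℝ) ^ β :=
      mul_le_mul_of_nonneg_right (le_abs_self C) hnβ
    exact mul_le_mul (hCr.trans h1) hrk hrk0 (by positivity)
  have hmain : (n : ℝ) * ‖tc f n‖ ≤ |C| * (n : ℝ) ^ β := by
    have h1 : ‖tc (deriv f) k‖ = (n : ℝ) * ‖tc f n‖ := by
      rw [htc, norm_mul, hk]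
      congr 1
      have : ((k : ℂ) + 1) = (((k : ℝ) + 1 : ℝ) : ℂ) := by push_cast; ring
      rw [this, Complex.norm_real, Real.norm_of_nonneg (by linarith)]
      push_cast
      ring
    rw [← h1, hform, norm_mul]
    have e2 : ‖(((2 * π)⁻¹ : ℝ) : ℂ)‖ = (2 * π)⁻¹ := by
      rw [Complex.norm_real, Real.norm_eq_abs, abs_of_pos (by positivity)]
    have e3 : ‖((2 * (π : ℂ))⁻¹)‖ = (2 * π)⁻¹ := by
      rw [← e2]; push_cast; rfl
    have h2 : (0 : ℝ) ≤ |C| * (n : ℝ) ^ β := by positivity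
    have h3 : (2 * π)⁻¹ * (|C| * (n : ℝ) ^ β * 3) ≤ |C| * (n : ℝ) ^ β := by
      rw [inv_mul_le_iff₀ (by positivity)]
      have := Real.pi_gt_three
      nlinarith
    refine le_trans ?_ h3
    rw [e2]
    exact mul_le_mul_of_nonneg_left hI2 (by positivity)
  have hfin : ‖tc f n‖ ≤ |C| * (n : ℝ) ^ (β - 1) := by
    rw [Real.rpow_sub hn0, Real.rpow_one, ← mul_div_assoc, le_div_iff₀ hn0]
    linarith
  refine hfin.trans ?_
  have h1 : (n : ℝ) ^ (β - 1) ≤ (n : ℝ) ^ α :=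
    Real.rpow_le_rpow_of_exponent_le (by linarith) (by linarith)
  exact mul_le_mul (le_max_left _ _) h1 (Real.rpow_nonneg hn0.le _)
    (le_trans hC0 (le_max_left _ _))

end Pool.Agent.Helper38.UB
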