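import Pool.Agent.Helper38.UB.Step

/-!
# Isolated large coefficients: the step of the gliding hump for exponents below `-1`
-/

set_option autoImplicit false

namespace Pool.Agent.Helper38.UB

open Complex MeasureTheory Set Metric Filter Topology
open scoped Real ENNReal
open Pool.Agent.Helper60.Rel (tc ClassS)
open Pool.Agent.Helper51.LT
open Pool.Agent.Helper61.LT

/-- the other coefficients are not changed by adding a monomial -/
theorem tc_add_mono_ne (hTcf : StTcf) {F : ℂ → ℂ} (hF : DifferentiableOn ℂ F (ball 0 1))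
    {n T : ℕ} (hne : n ≠ T) (c : ℂ) : tc (fun z => F z + c * z ^ T) n = tc F n := by
  have hM : DifferentiableOn ℂ (fun z : ℂ => c * z ^ T) (ball 0 1) := by fun_prop
  rw [tc_add hTcf hF hM n]
  have h1 : tc (fun z : ℂ => c * z ^ T) n = 0 := by
    rw [tcf_half hTcf hM]
    have h2 : ∫ t in (0 : ℝ)..(2 * π), c * circleMap 0 (1 / 2) t ^ T *
        (circleMap 0 (1 / 2) t ^ n)⁻¹ = 0 := by
      have h3 : ∀ t : ℝ, c * circleMap 0 (1 / 2) t ^ T * (circleMap 0 (1 / 2) t ^ n)⁻¹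
          = c * ((1 / 2 : ℝ) : ℂ) ^ ((T : ℤ) - n) * cexp (((T : ℤ) - n : ℤ) * I * t) := by
        intro t
        have h0 : circleMap 0 (1 / 2) t ≠ (0 : ℂ) := circleMap_ne_center (by norm_num)
        have e1 : circleMap 0 (1 / 2) t ^ T * (circleMap 0 (1 / 2) t ^ n)⁻¹
            = circleMap 0 (1 / 2) t ^ ((T : ℤ) - n) := by
          rw [zpow_sub₀ h0, zpow_natCast, zpow_natCast]
          exact (div_eq_mul_inv _ _).symm
        rw [mul_assoc, e1]
        have e2 : circleMap 0 (1 / 2) t = ((1 / 2 : ℝ) : ℂ) * cexp (t * I) := by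
          rw [circleMap_zero]
        rw [e2, mul_zpow, ← Complex.exp_int_mul, mul_assoc]
        congr 3
        ring
      simp_rw [h3]
      rw [intervalIntegral.integral_const_mul]
      have h4 : ((T : ℤ) - n : ℤ) ≠ 0 := by
        intro h; apply hne; omega
      have h5 : ∫ t in (0 : ℝ)..(2 * π), cexp ((((T : ℤ) - n : ℤ) : ℂ) * I * t) = 0 := by
        have h6 : ((((T : ℤ) - n : ℤ) : ℂ) * I) ≠ 0 :=
          mul_ne_zero (by exact_mod_cast h4) I_ne_zero
        rw [integral_exp_mul_complex h6]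
        have h7 : cexp ((((T : ℤ) - n : ℤ) : ℂ) * I * ((2 * π : ℝ) : ℂ)) = 1 := by
          have : ((((T : ℤ) - n : ℤ) : ℂ) * I * ((2 * π : ℝ) : ℂ))
              = (((T : ℤ) - n : ℤ) : ℂ) * (2 * π * I) := by push_cast; ring
          rw [this, Complex.exp_int_mul_two_pi_mul_I]
        rw [h7]
        simp
      rw [h5, mul_zero]
    rw [h2, mul_zero]
  rw [h1, add_zero]

theorem step_small (hKoe : StKoe) (hTcf : StTcf) {α : ℝ} (hα : α < -1)
    {f : ℂ → ℂ} (hPB : PB f) {η r₀ : ℝ} (j : ℕ) (hη : 0 < η) (hr₀ : r₀ < 1) :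
    ∃ f₁, PB f₁ ∧ (∀ z : ℂ, ‖z‖ ≤ r₀ → ‖f₁ z - f z‖ ≤ η) ∧ Rob (QI α j) f₁ := by
  obtain ⟨⟨R, hR1, hUn⟩, hf0, hf2⟩ := hPB
  obtain ⟨b₁, hb1, hb12, hb1f⟩ := sup_lt_two hR1 hUn hf2
  have hpi := Real.pi_pos
  set R' : ℝ := min R 2 with hR'
  have hR'1 : 1 < R' := lt_min hR1 (by norm_num)
  have hR'R : R' ≤ R := min_le_left _ _
  have hR'2 : R' ≤ 2 := min_le_right _ _
  set e : ℝ := (R' - 1) / 2 with he
  have he0 : 0 < e := by rw [he]; linarith
  have he1 : e ≤ 1 / 2 := by rw [he]; linarith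
  set ρ : ℝ := 1 + e with hρ
  have hρ1 : 1 < ρ := by rw [hρ]; linarith
  have hρ2 : ρ ≤ 2 := by rw [hρ]; linarith
  have hρR : ρ < R := by rw [hρ]; linarith
  have hcb : closedBall (0 : ℂ) ρ ⊆ ball 0 R := closedBall_subset_ball hρR
  have hfcont : ContinuousOn f (closedBall 0 ρ) := hUn.1.continuousOn.mono hcb
  have hdcont : ContinuousOn (deriv f) (closedBall 0 ρ) :=
    (hUn.1.deriv isOpen_ball).continuousOn.mono hcb
  have hcomp : IsCompact (closedBall (0 : ℂ) ρ) := isCompact_closedBall _ _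
  have hne : (closedBall (0 : ℂ) ρ).Nonempty := ⟨0, by simp; linarith⟩
  -- minimum of the derivative
  obtain ⟨z₀, hz₀, hmin⟩ := hcomp.exists_isMinOn hne hdcont.norm
  set c : ℝ := ‖deriv f z₀‖ with hc
  have hc0 : 0 < c := by
    rw [hc, norm_pos_iff]
    exact Pool.TU.X5.deriv_ne_zero_of_injOn isOpen_ball hUn.1 hUn.2 (hcb hz₀)
  have hcmin : ∀ z ∈ closedBall (0 : ℂ) ρ, c ≤ ‖deriv f z‖ := fun z hz => hmin hz
  -- maximum of f
  obtain ⟨b₀, hb₀⟩ := hcomp.exists_bound_of_continuousOn hfcont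
  set b : ℝ := max b₀ 0 with hb
  have hb0 : 0 ≤ b := le_max_right _ _
  have hbf : ∀ z ∈ closedBall (0 : ℂ) ρ, ‖f z‖ ≤ b := fun z hz => (hb₀ z hz).trans (le_max_left _ _)
  set κ : ℝ := c * e / 16 with hκ
  have hκ0 : 0 < κ := by rw [hκ]; positivity
  have hexp : ∀ z ∈ closedBall (0 : ℂ) ρ, ∀ w ∈ closedBall (0 : ℂ) ρ,
      κ * ‖w - z‖ ≤ ‖f w - f z‖ := by
    intro z hz w hw
    have hsub : ball z e ⊆ ball (0 : ℂ) R := by
      intro x hx
      rw [mem_ball_zero_iff]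
      rw [mem_ball, dist_eq_norm] at hx
      rw [mem_closedBall_zero_iff] at hz
      have : ‖x‖ ≤ ‖x - z‖ + ‖z‖ := by
        calc ‖x‖ = ‖(x - z) + z‖ := by ring_nf
          _ ≤ _ := norm_add_le _ _
      have hRe : ρ + e = R' := by rw [hρ, he]; ring
      linarith
    have h1 := hKoe f (ball 0 R) z e he0 hsub isOpen_ball hUn w (hcb hw)
    have h2 : ‖w - z‖ ≤ 4 := by
      rw [mem_closedBall_zero_iff] at hz hw
      calc ‖w - z‖ ≤ ‖w‖ + ‖z‖ := norm_sub_le _ _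
        _ ≤ 4 := by linarith
    have h3 : e / 4 * ‖w - z‖ ≤ min ‖w - z‖ e := by
      apply le_min
      · have := norm_nonneg (w - z)
        nlinarith
      · nlinarith
    have h4 : c * (e / 4 * ‖w - z‖) ≤ ‖deriv f z‖ * min ‖w - z‖ e :=
      mul_le_mul (hcmin z hz) h3 (by positivity) (norm_nonneg _)
    rw [hκ]
    linarith
  obtain ⟨ε, hε0, hεκ, hεη, hε2⟩ : ∃ ε : ℝ, 0 < ε ∧ 3 * ε < κ ∧ ε ≤ η ∧ b₁ + ε < 2 := by
    refine ⟨min (κ / 4) (min η ((2 - b₁) / 2)), lt_min (by positivity) (lt_min hη (by linarith)),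
      ?_, ?_, ?_⟩
    · have := min_le_left (κ / 4) (min η ((2 - b₁) / 2))
      linarith
    · exact (min_le_right _ _).trans (min_le_left _ _)
    · have : min (κ / 4) (min η ((2 - b₁) / 2)) ≤ (2 - b₁) / 2 :=
        (min_le_right _ _).trans (min_le_right _ _)
      linarith
  have hj0 : (0 : ℝ) ≤ j := Nat.cast_nonneg j
  -- choice of T
  have hJ0 : (0 : ℝ) < ((j : ℝ) + 1) * 2 ^ j := by positivity
  have ev1 : ∀ᶠ T : ℕ in atTop, 1 / (T : ℝ) < e :=
    (tendsto_one_div_atTop_nhds_zero_nat (𝕜 := ℝ)).eventually (gt_mem_nhds he0)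
  have ev2 : ∀ᶠ T : ℕ in atTop, (T : ℝ) * (ρ⁻¹) ^ T * b < ε / (4 * (((j : ℝ) + 1) * 2 ^ j)) := by
    have h1 := (tendsto_self_mul_const_pow_of_lt_one (r := ρ⁻¹) (by positivity)
      (inv_lt_one_of_one_lt₀ hρ1)).mul_const b
    rw [zero_mul] at h1
    exact h1.eventually (gt_mem_nhds (by positivity))
  have ev3 : ∀ᶠ T : ℕ in atTop, ((j : ℝ) + 1) * (T : ℝ) ^ (-(-(1 + α))) < ε / 2 := by
    have h1 := ((tendsto_rpow_neg_atTop (y := -(1 + α)) (by linarith)).comp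
      tendsto_natCast_atTop_atTop).const_mul ((j : ℝ) + 1)
    rw [mul_zero] at h1
    exact h1.eventually (gt_mem_nhds (by positivity))
  have ev4 : ∀ᶠ T : ℕ in atTop, 2 * j + 1 ≤ T := eventually_ge_atTop _
  obtain ⟨T, ⟨⟨hq1, hq2⟩, hq3⟩, hq4⟩ := (((ev1.and ev2).and ev3).and ev4).exists
  have hT1 : 1 ≤ T := by omega
  have hT0 : (0 : ℝ) < T := by exact_mod_cast hT1
  have hT0' : (T : ℂ) ≠ 0 := by exact_mod_cast hT0.ne'
  have hball : ball (0 : ℂ) (1 + 1 / (T : ℝ)) ⊆ closedBall 0 ρ := by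
    apply ball_subset_closedBall.trans
    apply closedBall_subset_closedBall
    rw [hρ]; linarith
  have h1T : (1 : ℝ) < 1 + 1 / (T : ℝ) := by
    have : 0 < 1 / (T : ℝ) := by positivity
    linarith
  set f₁ : ℂ → ℂ := fun z => f z + ((ε / T : ℝ) : ℂ) * z ^ T with hf₁
  have hf1 : DifferentiableOn ℂ f (ball 0 1) := hUn.1.mono (ball_subset_ball hR1.le)
  have hf₁d : DifferentiableOn ℂ f₁ (ball 0 (1 + 1 / (T : ℝ))) := by
    apply (hUn.1.mono (hball.trans hcb)).add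
    fun_prop
  have hf₁d1 : DifferentiableOn ℂ f₁ (ball 0 1) := hf₁d.mono (ball_subset_ball h1T.le)
  have hmono : ∀ z : ℂ, ‖z‖ ≤ 1 → ‖((ε / T : ℝ) : ℂ) * z ^ T‖ ≤ ε := by
    intro z hz
    rw [norm_mul, norm_pow, Complex.norm_real, Real.norm_eq_abs, abs_of_pos (by positivity)]
    have h1 : ‖z‖ ^ T ≤ 1 := pow_le_one₀ (norm_nonneg _) hz
    have h2 : ε / T ≤ ε := div_le_self hε0.le (by exact_mod_cast hT1)
    calc ε / T * ‖z‖ ^ T ≤ ε / T * 1 := by gcongr
      _ ≤ ε := by linarith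
  refine ⟨f₁, ⟨⟨1 + 1 / (T : ℝ), h1T, hf₁d, ?_⟩, ?_, ?_⟩, ?_, ?_⟩
  · -- injective
    intro z hz w hw hzw
    by_contra hne'
    have h1 := hexp z (hball hz) w (hball hw)
    have h2 := mono_lip hT1 hε0.le hz hw
    have h3 : f w - f z = -(((ε / T : ℝ) : ℂ) * w ^ T - ((ε / T : ℝ) : ℂ) * z ^ T) := by
      have : f z + ((ε / T : ℝ) : ℂ) * z ^ T = f w + ((ε / T : ℝ) : ℂ) * w ^ T := hzw
      linear_combination -this
    rw [h3, norm_neg] at h1
    have h4 : 0 < ‖w - z‖ := by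
      rw [norm_pos_iff, sub_ne_zero]
      exact fun h => hne' h.symm
    nlinarith
  · -- value at zero
    rw [hf₁]
    simp only
    rw [hf0, zero_pow (by omega), mul_zero, add_zero]
  · -- the bound
    intro z hz
    calc ‖f₁ z‖ ≤ ‖f z‖ + ‖((ε / T : ℝ) : ℂ) * z ^ T‖ := norm_add_le _ _
      _ < 2 := by
        have h1 := hb1f z hz
        have h2 := hmono z hz
        linarith
  · -- close
    intro z hz
    have h1 : f₁ z - f z = ((ε / T : ℝ) : ℂ) * z ^ T := by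
      show f z + ((ε / T : ℝ) : ℂ) * z ^ T - f z = _
      ring
    rw [h1]
    exact (hmono z (by linarith)).trans hεη
  · -- robust
    have hρ0 : 0 < ρ := by linarith
    -- Cauchy estimate
    have h4 : ∀ n : ℕ, ‖tc f n‖ ≤ b * (ρ⁻¹) ^ n := by
      intro n
      rw [hTcf f ρ n (by linarith) (hUn.1.mono hcb) ⟨R, hρR, hUn.1⟩]
      have h5 : ‖∫ t in (0 : ℝ)..(2 * π), f (circleMap 0 ρ t) * (circleMap 0 ρ t ^ n)⁻¹‖
          ≤ (b * (ρ⁻¹) ^ n) * |2 * π - 0| := by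
        apply intervalIntegral.norm_integral_le_of_norm_le_const
        intro t _
        rw [norm_mul, norm_inv, norm_pow, norm_circleMap_zero, abs_of_pos hρ0, inv_pow]
        apply mul_le_mul_of_nonneg_right _ (by positivity)
        apply hbf
        rw [mem_closedBall_zero_iff, norm_circleMap_zero, abs_of_pos hρ0]
      rw [norm_mul]
      have e2 : ‖(((2 * π)⁻¹ : ℝ) : ℂ)‖ = (2 * π)⁻¹ := by
        rw [Complex.norm_real, Real.norm_eq_abs, abs_of_pos (by positivity)]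
      rw [e2]
      have e3 : |2 * π - 0| = 2 * π := by rw [sub_zero, abs_of_pos (by positivity)]
      rw [e3] at h5
      calc (2 * π)⁻¹ * _ ≤ (2 * π)⁻¹ * ((b * (ρ⁻¹) ^ n) * (2 * π)) := by gcongr
        _ = b * (ρ⁻¹) ^ n := by field_simp
    have hJ : 1 ≤ ((j : ℝ) + 1) * 2 ^ j := by
      have h1 : (1 : ℝ) ≤ (j : ℝ) + 1 := by linarith
      have h2 : (1 : ℝ) ≤ 2 ^ j := one_le_pow₀ (by norm_num)
      exact one_le_mul_of_one_le_of_one_le h1 h2
    -- (j+1) 2^j b ρ^{-T} < ε/(4T)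
    have hsmall : ((j : ℝ) + 1) * 2 ^ j * (b * (ρ⁻¹) ^ T) ≤ ε / (4 * T) := by
      rw [lt_div_iff₀ (by positivity)] at hq2
      rw [le_div_iff₀ (by positivity)]
      have : ((j : ℝ) + 1) * 2 ^ j * (b * (ρ⁻¹) ^ T) * (4 * T)
          = (T : ℝ) * (ρ⁻¹) ^ T * b * (4 * (((j : ℝ) + 1) * 2 ^ j)) := by ring
      rw [this]
      exact hq2.le
    have hbρ : 0 ≤ b * (ρ⁻¹) ^ T := by positivity
    have h6 : ‖tc f T‖ ≤ ε / (4 * T) := by
      refine (h4 T).trans (le_trans ?_ hsmall)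
      exact le_mul_of_one_le_left hbρ hJ
    have h3 : tc f₁ T = tc f T + ((ε / T : ℝ) : ℂ) := tc_add_mono hTcf hf1 T _
    have h7 : ε / (2 * T) ≤ ‖tc f₁ T‖ := by
      have h8 : ‖((ε / T : ℝ) : ℂ)‖ = ε / T := by
        rw [Complex.norm_real, Real.norm_eq_abs, abs_of_pos (by positivity)]
      have h9 : ((ε / T : ℝ) : ℂ) = tc f₁ T - tc f T := by rw [h3]; ring
      have h10 : ε / T ≤ ‖tc f₁ T‖ + ‖tc f T‖ := by
        rw [← h8, h9]
        exact norm_sub_le _ _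
      have h11 : ε / T = ε / (2 * T) + ε / (4 * T) + ε / (4 * T) := by field_simp; norm_num
      have h12 : 0 ≤ ε / (4 * T) := by positivity
      linarith
    apply qi_rob hTcf hf₁d1 hq4
    · refine le_trans ?_ h7
      have e4 : (T : ℝ) ^ (-(-(1 + α))) = T * (T : ℝ) ^ α := by
        rw [neg_neg, Real.rpow_add hT0, Real.rpow_one]
      rw [e4] at hq3
      rw [le_div_iff₀ (by positivity)]
      nlinarith
    · intro n hn hn1 hn2
      have h13 : tc f₁ n = tc f n := tc_add_mono_ne hTcf hf1 hn _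
      rw [h13]
      have h14 : (ρ⁻¹) ^ n ≤ 2 ^ j * (ρ⁻¹) ^ T := by
        have e5 : (ρ⁻¹) ^ n = ρ ^ (T + j - n) * (ρ⁻¹) ^ (T + j) := by
          have e6 : T + j = (T + j - n) + n := by omega
          conv_rhs => rw [e6]
          rw [pow_add]
          have e7 : T + j - n + n - n = T + j - n := by omega
          rw [e7, ← mul_assoc, ← mul_pow, mul_inv_cancel₀ hρ0.ne', one_pow, one_mul]
        rcases Nat.lt_or_ge n T with hlt | hge
        · have e8 : (ρ⁻¹) ^ n = ρ ^ (T - n) * (ρ⁻¹) ^ T := by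
            have e6 : T = (T - n) + n := by omega
            conv_rhs => rw [e6]
            rw [pow_add]
            have e7 : T - n + n - n = T - n := by omega
            rw [e7, ← mul_assoc, ← mul_pow, mul_inv_cancel₀ hρ0.ne', one_pow, one_mul]
          rw [e8]
          apply mul_le_mul_of_nonneg_right _ (by positivity)
          calc ρ ^ (T - n) ≤ 2 ^ (T - n) := pow_le_pow_left₀ hρ0.le hρ2 _
            _ ≤ 2 ^ j := pow_le_pow_right₀ (by norm_num) (by omega)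
        · have e9 : (ρ⁻¹) ^ n ≤ (ρ⁻¹) ^ T :=
            pow_le_pow_of_le_one (by positivity) (inv_le_one_of_one_le₀ hρ1.le) hge
          have e10 : (1 : ℝ) ≤ 2 ^ j := one_le_pow₀ (by norm_num)
          have e11 : 0 ≤ (ρ⁻¹) ^ T := by positivity
          exact e9.trans (le_mul_of_one_le_left e11 e10)
      calc 2 * ((j : ℝ) + 1) * ‖tc f n‖ ≤ 2 * ((j : ℝ) + 1) * (b * (2 ^ j * (ρ⁻¹) ^ T)) := by
            apply mul_le_mul_of_nonneg_left _ (by positivity)
            exact (h4 n).trans (mul_le_mul_of_nonneg_left h14 hb0)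
        _ = 2 * (((j : ℝ) + 1) * 2 ^ j * (b * (ρ⁻¹) ^ T)) := by ring
        _ ≤ 2 * (ε / (4 * T)) := by linarith
        _ = ε / (2 * T) := by field_simp; norm_num
        _ ≤ ‖tc f₁ T‖ := h7

end Pool.Agent.Helper38.UB
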