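import Pool.Agent.Helper38.UB.Tc

/-!
# Isolated large coefficients: the step of the gliding hump (case of positive exponent)
-/

set_option autoImplicit false

namespace Pool.Agent.Helper38.UB

open Complex MeasureTheory Set Metric Filter Topology
open scoped Real ENNReal
open Pool.Agent.Helper60.Rel (tc ClassS)
open Pool.Agent.Helper51.LT
open Pool.Agent.Helper76.LT

theorem sup_lt_two {f : ℂ → ℂ} {R : ℝ} (hR : 1 < R) (hUf : Un f (ball 0 R))
    (hf2 : ∀ z : ℂ, ‖z‖ ≤ 1 → ‖f z‖ < 2) :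
    ∃ b : ℝ, 1 ≤ b ∧ b < 2 ∧ ∀ z : ℂ, ‖z‖ ≤ 1 → ‖f z‖ ≤ b := by
  have hsub : closedBall (0 : ℂ) 1 ⊆ ball 0 R := closedBall_subset_ball hR
  have hcomp : IsCompact (closedBall (0 : ℂ) 1) := isCompact_closedBall 0 1
  have hne : (closedBall (0 : ℂ) 1).Nonempty := ⟨0, by simp⟩
  have hcf : ContinuousOn f (closedBall 0 1) := hUf.1.continuousOn.mono hsub
  obtain ⟨z₂, hz₂, hmax2⟩ := hcomp.exists_isMaxOn hne hcf.norm
  have hmem : ∀ z : ℂ, ‖z‖ ≤ 1 → z ∈ closedBall (0 : ℂ) 1 := fun z hz => by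
    simpa [mem_closedBall, dist_zero_right] using hz
  have hz₂' : ‖z₂‖ ≤ 1 := by simpa [mem_closedBall, dist_zero_right] using hz₂
  exact ⟨max 1 ‖f z₂‖, le_max_left _ _, max_lt (by norm_num) (hf2 z₂ hz₂'),
    fun z hz => le_trans (hmax2 (hmem z hz)) (le_max_right _ _)⟩

theorem bx1 {w b2 : ℝ} (c : ℝ) (hw : w = min c b2) : w ≤ c := by rw [hw]; exact min_le_left _ _

/-- the final arithmetic -/
theorem bx2 {w C J P b X I Y : ℝ} (hw : 0 < w) (hX : 1 ≤ X) (hb : 0 ≤ b)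
    (hI : w * (3 / 16000 / π * I) = (2 * (J * C) + 16 * (J * P * b) + 8 * w + 4 * b) * X)
    (hY : w * (3 / 16000 / π * I - 8) - 4 * b ≤ Y) :
    2 * (J * (C * X)) + 16 * (J * P * b) * X ≤ Y := by
  have h1 : 8 * w ≤ 8 * w * X := by nlinarith
  have h2 : 4 * b ≤ 4 * b * X := by nlinarith
  have h3 : w * (3 / 16000 / π * I - 8) = w * (3 / 16000 / π * I) - 8 * w := by ring
  rw [h3, hI] at hY
  nlinarith

theorem step_big (hHump : StHump) (hHar : StHar) (hPol : StPol) (hCJU : StCJU) (hTcf : StTcf)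
    (hTcd : StTcd) (hCJC : StCJC) {α γ : ℝ} (hγ : 0 < γ) (hαγ : 1 + α < γ) (hHU : HU γ)
    {f : ℂ → ℂ} (hPB : PB f) {η r₀ : ℝ} (j : ℕ) (hη : 0 < η) (hr₀ : r₀ < 1) :
    ∃ f₁, PB f₁ ∧ (∀ z : ℂ, ‖z‖ ≤ r₀ → ‖f₁ z - f z‖ ≤ η) ∧ Rob (QI α j) f₁ := by
  obtain ⟨⟨R, hR, hUf⟩, hf0, hf2⟩ := hPB
  obtain ⟨b, hb, hb2, hbf⟩ := sup_lt_two hR hUf hf2
  obtain ⟨c, b', Λ, hc, -, hΛ, hcf, -, hLf⟩ := stl_consts hR hUf
  obtain ⟨w, hw0, hwc, hwb⟩ : ∃ w : ℝ, 0 < w ∧ w ≤ c ∧ b + w < 2 := by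
    refine ⟨min c ((2 - b) / 2), lt_min hc (by linarith), min_le_left _ _, ?_⟩
    have := min_le_right c ((2 - b) / 2)
    linarith
  -- symmetry of the hump
  obtain ⟨N, hNj⟩ : ∃ N : ℕ, N = j + 1 := ⟨_, rfl⟩
  have hN : 1 ≤ N := by omega
  -- radius
  set r : ℝ := max r₀ 0 with hr
  have hr0 : 0 ≤ r := le_max_right _ _
  have hr1 : r < 1 := max_lt hr₀ one_pos
  have h1r : 0 < 1 - r := by linarith
  -- exponents
  set γ' : ℝ := (max 0 (1 + α) + γ) / 2 with hγ'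
  have hmax : max 0 (1 + α) < γ := max_lt hγ hαγ
  have hmax0 : 0 ≤ max 0 (1 + α) := le_max_left _ _
  have hmax1 : 1 + α ≤ max 0 (1 + α) := le_max_right _ _
  have hγ'0 : 0 < γ' := by rw [hγ']; linarith
  have hγ'γ : γ' < γ := by rw [hγ']; linarith
  have hαγ' : 1 + α < γ' := by rw [hγ']; linarith
  set e : ℝ := max (1 + α) (γ' / 2) with he
  have he0 : 0 < e := lt_of_lt_of_le (by linarith) (le_max_right _ _)
  have heγ : e < γ' := max_lt hαγ' (by linarith)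
  have hαe : 1 + α ≤ e := le_max_left _ _
  obtain ⟨C₆, hC₆, hpow⟩ := stl_pow he0 heγ N
  have hj0 : (0 : ℝ) ≤ j := Nat.cast_nonneg j
  -- constants
  set Q : ℝ := 2 * (((j : ℝ) + 1) * C₆) + 16 * (((j : ℝ) + 1) * 2 ^ j * b) + 8 * w + 4 * b with hQ
  have hQ0 : 0 < Q := by rw [hQ]; positivity
  set K : ℝ := 32000 * π / (3 * w) * Q with hK
  set A : ℝ := 2 + j + (4 * Λ + b) / (η * (1 - r) ^ 2) with hA
  obtain ⟨h, ρ, lam, hh, hh0, hhS, hρ, hρ1, hAρ, hlam, hlam1, hdh, hAlam, hIM⟩ :=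
    hHump γ' γ hγ'0.le hγ'γ hHU N A K hN
  have hAfrac : 0 ≤ (4 * Λ + b) / (η * (1 - r) ^ 2) := by positivity
  have hA2 : 2 ≤ A := by rw [hA]; linarith
  have hAj : (j : ℝ) ≤ A := by rw [hA]; linarith
  have hAfr : (4 * Λ + b) / (η * (1 - r) ^ 2) ≤ A := by rw [hA]; linarith
  have hApos : 0 < A := by linarith
  have hKpos : 0 < K := by rw [hK]; positivity
  clear_value A K
  set d : ℝ := 1 - ρ with hd
  have hd0 : 0 < d := by rw [hd]; linarith
  have hd1 : d ≤ 1 := by rw [hd]; linarith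
  have hρd : ρ = 1 - d := by rw [hd]; ring
  have hd2 : d ≤ 1 / 2 := ax1 hA2 hd0.le hAρ
  have hmem : ∀ z ∈ ball (0 : ℂ) (1 + d), (ρ : ℂ) * z ∈ ball (0 : ℂ) 1 := by
    intro z hz
    rw [mem_ball, dist_zero_right] at hz ⊢
    rw [norm_mul, Complex.norm_real, Real.norm_of_nonneg hρ.le]
    have h1 := mul_lt_mul_of_pos_left hz hρ
    have h2 : ρ * (1 + d) = 1 - d ^ 2 := by rw [hρd]; ring
    have h3 : 0 < d ^ 2 := by positivity
    linarith
  have hhR : ∀ z ∈ ball (0 : ℂ) 1, h z ∈ ball (0 : ℂ) R := by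
    intro z hz
    rw [mem_ball, dist_zero_right]
    exact lt_of_le_of_lt (hh.2 z hz) hR
  have hρne : (ρ : ℂ) ≠ 0 := ofReal_ne_zero.2 hρ.ne'
  have hball : ball (0 : ℂ) 1 ⊆ ball 0 (1 + d) := ball_subset_ball (by linarith)
  -- the hump on the larger disc
  set h₂ : ℂ → ℂ := fun z => h (ρ * z) with hh₂
  have hh₂d : DifferentiableOn ℂ h₂ (ball 0 (1 + d)) := by
    intro z hz
    have h1 : DifferentiableAt ℂ h ((ρ : ℂ) * z) :=
      (hh.1.1 _ (hmem z hz)).differentiableAt (isOpen_ball.mem_nhds (hmem z hz))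
    have h3 : DifferentiableAt ℂ (fun w : ℂ => (ρ : ℂ) * w) z :=
      differentiableAt_id.const_mul _
    exact (DifferentiableAt.comp z h1 h3).differentiableWithinAt
  have hh₂i : InjOn h₂ (ball 0 (1 + d)) := by
    intro z hz w hw hzw
    exact mul_left_cancel₀ hρne (hh.1.2 (hmem z hz) (hmem w hw) hzw)
  have hh₂b : ∀ z ∈ ball (0 : ℂ) (1 + d), ‖h₂ z‖ ≤ 1 := fun z hz => hh.2 _ (hmem z hz)
  have hh₂0 : h₂ 0 = 0 := by simp [hh₂, hh0]
  have hh₂S : Sy N h₂ := by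
    intro ω z hω hz
    have := hhS ω (ρ * z) hω (hmem z (hball hz))
    show h (ρ * (ω * z)) = ω * h (ρ * z)
    rw [← this]; congr 1; ring
  have hh₂R : ∀ z ∈ ball (0 : ℂ) (1 + d), h₂ z ∈ ball (0 : ℂ) R := fun z hz =>
    hhR _ (hmem z hz)
  set f₂ : ℂ → ℂ := fun z => f (h₂ z) with hf₂
  have hf₂D : ∀ z ∈ ball (0 : ℂ) (1 + d), HasDerivAt f₂ (deriv f (h₂ z) * deriv h₂ z) z := by
    intro z hz
    have h1 : HasDerivAt h₂ (deriv h₂ z) z :=
      ((hh₂d z hz).differentiableAt (isOpen_ball.mem_nhds hz)).hasDerivAt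
    have h2 : HasDerivAt f (deriv f (h₂ z)) (h₂ z) :=
      ((hUf.1 _ (hh₂R z hz)).differentiableAt (isOpen_ball.mem_nhds (hh₂R z hz))).hasDerivAt
    exact HasDerivAt.comp z h2 h1
  have hf₂d : DifferentiableOn ℂ f₂ (ball 0 (1 + d)) := fun z hz =>
    (hf₂D z hz).differentiableAt.differentiableWithinAt
  have hf₂i : InjOn f₂ (ball 0 (1 + d)) := by
    intro z hz w hw hzw
    exact hh₂i hz hw (hUf.2 (hh₂R z hz) (hh₂R w hw) hzw)
  have hf₂b : ∀ z ∈ ball (0 : ℂ) (1 + d), ‖f₂ z‖ ≤ b := fun z hz => hbf _ (hh₂b z hz)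
  have hf₂0 : f₂ 0 = 0 := by simp [hf₂, hh₂0, hf0]
  have hIM2 : ρ * 1 * IM h ρ ≤ IM h₂ 1 :=
    stl_IM (f := fun z => z) (R := 2) (by norm_num) differentiable_id.differentiableOn hh hρ hρ1
      (by intro z _; simp)
  -- the exponent L
  have hlog : 0 ≤ Real.log (1 / d) := Real.log_nonneg (by rw [le_div_iff₀ hd0]; linarith)
  set q : ℝ := 100 / d * (1 + Real.log (1 / d)) with hq
  have h100 : 100 ≤ 100 / d := by rw [le_div_iff₀ hd0]; linarith
  have hq0 : 100 / d ≤ q := by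
    rw [hq]; exact le_mul_of_one_le_right (by positivity) (by linarith)
  have hN1 : (1 : ℝ) ≤ N := by exact_mod_cast hN
  have hqpos : 0 ≤ q := by linarith
  set L : ℕ := N * ⌈q⌉₊ with hL
  have hLq : q ≤ L := by
    rw [hL]; push_cast
    exact ax2 hN1 (Nat.le_ceil q) hqpos
  have hLq2 : (L : ℝ) ≤ N * (q + 1) := by
    rw [hL]; push_cast
    exact mul_le_mul_of_nonneg_left (Nat.ceil_lt_add_one hqpos).le (by positivity)
  have hdvd : N ∣ L := dvd_mul_right _ _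
  clear_value L
  obtain ⟨p, hp1, hp2, hp3⟩ := hPol d h₂ N L hd0 hd1 ⟨hh₂d, hh₂i⟩ hh₂S hN hdvd hLq
  -- the primitive
  have hF : DifferentiableOn ℂ (fun z => 1 / 2000 * deriv h₂ z * z ^ L * p.eval z)
      (ball 0 (1 + d)) := by
    apply DifferentiableOn.mul
    · apply DifferentiableOn.mul
      · exact (hh₂d.deriv isOpen_ball).const_mul _
      · exact (differentiable_id.pow L).differentiableOn
    · exact p.differentiable.differentiableOn
  obtain ⟨v, hv0, hv⟩ := (hF.isExactOn_ball).with_val_at 0 0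
  have hLbig : 100 / d ≤ L := hq0.trans hLq
  have hLd : 1 ≤ (L : ℝ) * d := by
    rw [div_le_iff₀ hd0] at hLbig; linarith
  have hLA : A ≤ L := by
    have h1 : A ≤ 1 / d := by rw [le_div_iff₀ hd0]; exact hAρ
    have h2 : 1 / d ≤ 100 / d := by
      apply div_le_div_of_nonneg_right _ hd0.le; norm_num
    linarith
  have hvb : ∀ z : ℂ, ‖z‖ ≤ 1 → ‖v z‖ ≤ 1 := fun z hz =>
    u_bound hd0 hh₂d hh₂b hLd hp2 hv0 hv hz
  have hvS : Sy N v := stl_sym hN hdvd (hh₂d.mono hball) hh₂S hv0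
    (fun z hz => hv z (hball hz)) hp3
  have hvd : DifferentiableOn ℂ v (ball 0 (1 + d)) :=
    fun z hz => (hv z hz).differentiableAt.differentiableWithinAt
  -- the perturbation
  set u : ℂ → ℂ := fun z => (w : ℂ) * v z with hu_def
  have hu0 : u 0 = 0 := by simp [hu_def, hv0]
  have hfne : ∀ z ∈ ball (0 : ℂ) (1 + d), deriv f (h₂ z) ≠ 0 := by
    intro z hz h0
    have h1 := hcf _ (hh₂b z hz)
    rw [h0, norm_zero] at h1
    linarith
  have hu : ∀ z ∈ ball (0 : ℂ) (1 + d), HasDerivAt u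
      (1 / 2000 * deriv f₂ z * z ^ L * ((w : ℂ) * p.eval z / deriv f (h₂ z))) z := by
    intro z hz
    have h1 := (hv z hz).const_mul (w : ℂ)
    refine h1.congr_deriv ?_
    rw [(hf₂D z hz).deriv]
    have h2 := hfne z hz
    field_simp
  have hp2' : ∀ z : ℂ, ‖z‖ ≤ 1 → ‖(w : ℂ) * p.eval z / deriv f (h₂ z)‖ ≤ 5 / 4 := by
    intro z hz
    have hz' : z ∈ ball (0 : ℂ) (1 + d) := by
      rw [mem_ball, dist_zero_right]; linarith
    rw [norm_div, norm_mul, Complex.norm_real, Real.norm_of_nonneg hw0.le,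
      div_le_iff₀ (norm_pos_iff.2 (hfne z hz'))]
    have h1 := hcf _ (hh₂b z hz')
    have h2 := hp2 z hz
    calc w * ‖p.eval z‖ ≤ c * (5 / 4) := mul_le_mul hwc h2 (norm_nonneg _) hc.le
      _ = 5 / 4 * c := by ring
      _ ≤ 5 / 4 * ‖deriv f (h₂ z)‖ := mul_le_mul_of_nonneg_left h1 (by norm_num)
  obtain ⟨hinj, hub⟩ := hCJU d f₂ u (fun z => (w : ℂ) * p.eval z / deriv f (h₂ z)) L hd0 hd1
    ⟨hf₂d, hf₂i⟩ hLd hp2' hu0 hu
  have hTC := hCJC d 1 h₂ v (fun z => p.eval z) L L hd0 hd1 hh₂d hh₂b hp1 hv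
  set T : ℕ := L + L + 1 with hT
  have hTN : T % N = 1 % N := by
    obtain ⟨k, hk⟩ := hdvd
    rw [hT, hk]
    have : N * k + N * k + 1 = 1 + N * (k + k) := by ring
    rw [this, Nat.add_mul_mod_self_left]
  have hTr : (T : ℝ) = 2 * L + 1 := by rw [hT]; push_cast; ring
  have hTj : 2 * j + 1 ≤ T := by
    have : (j : ℝ) ≤ L := hAj.trans hLA
    have : j ≤ L := by exact_mod_cast this
    omega
  clear_value T
  have hL1 : (1 : ℝ) ≤ L := by linarith
  have hT1 : (1 : ℝ) ≤ T := by rw [hTr]; linarith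
  have hTpos : (0 : ℝ) < T := by linarith
  have hTnat : 1 ≤ T := by exact_mod_cast hT1
  set f₃ : ℂ → ℂ := fun z => f₂ z + u z with hf₃
  have hud : DifferentiableOn ℂ u (ball 0 (1 + d)) := hvd.const_mul _
  have hf₃d : DifferentiableOn ℂ f₃ (ball 0 (1 + d)) := hf₂d.add hud
  -- the radius r₃
  set x : ℝ := 1 / (2 * A * T) with hx
  have hx0 : 0 < x := by rw [hx]; positivity
  have hxT : T * x = 1 / (2 * A) := by rw [hx]; field_simp
  have hxTA : T * x ≤ 1 / 2 := by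
    rw [hxT, div_le_div_iff₀ (by positivity) (by norm_num)]; linarith
  have hxA : x ≤ 1 / A := by
    rw [hx]
    exact div_le_div_of_nonneg_left (by norm_num) hApos (ax3 hApos hT1)
  have hx1 : x ≤ 1 / 2 := ax4 hx0 hT1 hxTA
  clear_value x
  set r₃ : ℝ := 1 - x with hr₃
  have hr₃0 : 0 < r₃ := by rw [hr₃]; linarith
  have hr₃1 : r₃ < 1 := by rw [hr₃]; linarith
  have hr₃T : 1 / 2 ≤ r₃ ^ T := by
    have h1 := one_add_mul_le_pow (show (-2 : ℝ) ≤ -x by linarith) T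
    have h2 : (1 + -x) = r₃ := by rw [hr₃]; ring
    rw [h2] at h1
    linarith
  have hmem₃ : ∀ z ∈ ball (0 : ℂ) (1 / r₃), (r₃ : ℂ) * z ∈ ball (0 : ℂ) 1 := by
    intro z hz
    rw [mem_ball, dist_zero_right] at hz ⊢
    rw [norm_mul, Complex.norm_real, Real.norm_of_nonneg hr₃0.le]
    rw [lt_div_iff₀ hr₃0] at hz
    linarith
  have hr₃inv : 1 < 1 / r₃ := by rw [lt_div_iff₀ hr₃0]; linarith
  have hball₃ : ball (0 : ℂ) 1 ⊆ ball 0 (1 / r₃) := ball_subset_ball hr₃inv.le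
  have hr₃ne : (r₃ : ℂ) ≠ 0 := ofReal_ne_zero.2 hr₃0.ne'
  set f₄ : ℂ → ℂ := fun z => f₃ (r₃ * z) with hf₄
  have hf₄d : DifferentiableOn ℂ f₄ (ball 0 (1 / r₃)) := by
    intro z hz
    have hz1 := hball (hmem₃ z hz)
    have h1 : DifferentiableAt ℂ f₃ ((r₃ : ℂ) * z) :=
      (hf₃d _ hz1).differentiableAt (isOpen_ball.mem_nhds hz1)
    have h3 : DifferentiableAt ℂ (fun w : ℂ => (r₃ : ℂ) * w) z :=
      differentiableAt_id.const_mul _
    exact (DifferentiableAt.comp z h1 h3).differentiableWithinAt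
  have hf₄i : InjOn f₄ (ball 0 (1 / r₃)) := by
    intro z hz w hw hzw
    have h1 := hinj (ball_subset_closedBall (hmem₃ z hz)) (ball_subset_closedBall (hmem₃ w hw)) hzw
    exact mul_left_cancel₀ hr₃ne h1
  have hf₄0 : f₄ 0 = 0 := by simp [hf₄, hf₃, hf₂0, hu0]
  refine ⟨f₄, ⟨⟨1 / r₃, hr₃inv, hf₄d, hf₄i⟩, hf₄0, ?_⟩, ?_, ?_⟩
  · -- the bound
    intro z hz
    have h1 : ‖(r₃ : ℂ) * z‖ ≤ 1 := by
      rw [norm_mul, Complex.norm_real, Real.norm_of_nonneg hr₃0.le]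
      exact ax5 hr₃1.le (norm_nonneg z) hz
    have h2 : (r₃ : ℂ) * z ∈ ball (0 : ℂ) (1 + d) := by
      rw [mem_ball, dist_zero_right]; linarith
    have h3 := hf₂b _ h2
    have h4 := hvb _ h1
    have h5 : ‖u ((r₃ : ℂ) * z)‖ ≤ w := by
      show ‖(w : ℂ) * v ((r₃ : ℂ) * z)‖ ≤ w
      rw [norm_mul, Complex.norm_real, Real.norm_of_nonneg hw0.le]
      exact mul_le_of_le_one_right hw0.le h4
    calc ‖f₄ z‖ = ‖f₂ ((r₃ : ℂ) * z) + u ((r₃ : ℂ) * z)‖ := rfl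
      _ ≤ ‖f₂ ((r₃ : ℂ) * z)‖ + ‖u ((r₃ : ℂ) * z)‖ := norm_add_le _ _
      _ < 2 := by linarith
  · -- closeness
    intro z hz₀
    have hz : ‖z‖ ≤ r := hz₀.trans (le_max_left _ _)
    have hz1 : ‖z‖ ≤ 1 := by linarith
    have hr3z : ‖(r₃ : ℂ) * z‖ ≤ r := by
      rw [norm_mul, Complex.norm_real, Real.norm_of_nonneg hr₃0.le]
      exact ax5 hr₃1.le (norm_nonneg z) hz
    set v' : ℂ := (ρ : ℂ) * (r₃ * z) with hv'
    have hvr : ‖v'‖ ≤ r := by
      rw [hv', norm_mul, Complex.norm_real, Real.norm_of_nonneg hρ.le]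
      exact ax5 hρ1.le (norm_nonneg _) hr3z
    have hv1 : v' ∈ ball (0 : ℂ) 1 := by
      rw [mem_ball, dist_zero_right]; linarith
    have hinvA : 1 / A > 0 := by positivity
    have hdA : d ≤ 1 / A := by rw [le_div_iff₀ hApos]; linarith
    have hlA : 1 - lam ≤ 1 / A := by rw [le_div_iff₀ hApos]; linarith
    have hvz : ‖v' - z‖ ≤ 2 / A := by
      have h1 : v' - z = ((ρ * r₃ - 1 : ℝ) : ℂ) * z := by rw [hv']; push_cast; ring
      rw [h1, norm_mul, Complex.norm_real]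
      have h2 : ‖ρ * r₃ - 1‖ ≤ d + x := by
        have e1 : ρ * r₃ = (1 - d) * (1 - x) := by rw [hρd]
        rw [Real.norm_eq_abs, e1]
        exact ax6 hd0.le hd1 hx0.le (by linarith)
      have h3 : d + x ≤ 2 / A := by
        have : 2 / A = 1 / A + 1 / A := by ring
        linarith
      calc ‖ρ * r₃ - 1‖ * ‖z‖ ≤ ‖ρ * r₃ - 1‖ * 1 :=
            mul_le_mul_of_nonneg_left hz1 (norm_nonneg _)
        _ ≤ 2 / A := by linarith
    have hhv : ‖h v' - v'‖ ≤ 2 / (A * (1 - r)) := by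
      have h1 := hHar h lam hh hh0 hdh hlam hlam1 v' hv1
      have h2 : (1 - r) * ‖h v' - v'‖ ≤ 2 * (1 / A) := by
        calc (1 - r) * ‖h v' - v'‖ ≤ (1 - ‖v'‖) * ‖h v' - v'‖ :=
              mul_le_mul_of_nonneg_right (by linarith) (norm_nonneg _)
          _ ≤ 2 * (1 - lam) := h1
          _ ≤ 2 * (1 / A) := by linarith
      have h3 : 2 / (A * (1 - r)) = 2 * (1 / A) / (1 - r) := by field_simp
      rw [h3, le_div_iff₀ h1r]
      linarith
    have hI : ‖f (h v') - f z‖ ≤ Λ * (2 / (A * (1 - r)) + 2 / A) := by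
      refine (hLf (h v') z (hh.2 v' hv1) hz1).trans ?_
      apply mul_le_mul_of_nonneg_left _ hΛ.le
      calc ‖h v' - z‖ = ‖(h v' - v') + (v' - z)‖ := by ring_nf
        _ ≤ ‖h v' - v'‖ + ‖v' - z‖ := norm_add_le _ _
        _ ≤ _ := add_le_add hhv hvz
    have hSb : ∀ w : ℂ, ‖w‖ ≤ r → ‖deriv f₂ w‖ ≤ b / (1 - r) := by
      intro w hw
      have hsub : closedBall w (1 - r) ⊆ ball 0 (1 + d) := by
        intro y hy
        rw [mem_closedBall, dist_eq_norm] at hy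
        rw [mem_ball, dist_zero_right]
        have : ‖y‖ ≤ ‖y - w‖ + ‖w‖ := by
          have := norm_add_le (y - w) w
          simpa using this
        linarith
      apply Complex.norm_deriv_le_of_forall_mem_sphere_norm_le h1r
      · apply DifferentiableOn.diffContOnCl
        rw [closure_ball w h1r.ne']
        exact hf₂d.mono hsub
      · intro y hy
        exact hf₂b y (hsub (sphere_subset_closedBall hy))
    have hII : ‖u ((r₃ : ℂ) * z)‖ ≤ b / (A * (1 - r) ^ 2) := by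
      have h1 := hub r (b / (1 - r)) hr0 hr1 hSb _ hr3z
      have h2 : r ^ L * (A * (1 - r)) ≤ 1 := by
        have h3 : r ≤ Real.exp (-(1 - r)) := by
          have := Real.add_one_le_exp (-(1 - r)); linarith
        have h4 : r ^ L ≤ Real.exp (-(L * (1 - r))) := by
          calc r ^ L ≤ (Real.exp (-(1 - r))) ^ L := pow_le_pow_left₀ hr0 h3 L
            _ = Real.exp (-(L * (1 - r))) := by rw [← Real.exp_nat_mul]; congr 1; ring
        have h5 : (L : ℝ) * (1 - r) ≤ Real.exp (L * (1 - r)) := by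
          have := Real.add_one_le_exp ((L : ℝ) * (1 - r)); linarith
        have h6 : Real.exp (-(L * (1 - r))) * Real.exp (L * (1 - r)) = 1 := by
          rw [← Real.exp_add]; simp
        have h7 : 0 < Real.exp (-(L * (1 - r))) := Real.exp_pos _
        calc r ^ L * (A * (1 - r)) ≤ Real.exp (-(L * (1 - r))) * (L * (1 - r)) := by
              apply mul_le_mul h4 _ (by positivity) h7.le
              exact mul_le_mul_of_nonneg_right hLA h1r.le
          _ ≤ Real.exp (-(L * (1 - r))) * Real.exp (L * (1 - r)) :=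
              mul_le_mul_of_nonneg_left h5 h7.le
          _ = 1 := h6
      refine h1.trans ?_
      rw [le_div_iff₀ (by positivity)]
      calc r ^ L * (b / (1 - r)) * (A * (1 - r) ^ 2) = (r ^ L * (A * (1 - r))) * b := by
            field_simp
        _ ≤ 1 * b := mul_le_mul_of_nonneg_right h2 (by linarith)
        _ = b := one_mul b
    have hsum : Λ * (2 / (A * (1 - r)) + 2 / A) + b / (A * (1 - r) ^ 2) ≤ η := by
      have h1 : 2 / (A * (1 - r)) ≤ 2 / (A * (1 - r) ^ 2) := by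
        apply div_le_div_of_nonneg_left (by norm_num) (by positivity)
        exact mul_le_mul_of_nonneg_left (ax7 hr0 hr1) hApos.le
      have h2 : 2 / A ≤ 2 / (A * (1 - r) ^ 2) := by
        apply div_le_div_of_nonneg_left (by norm_num) (by positivity)
        exact mul_le_of_le_one_right hApos.le (ax7b hr0 hr1)
      have h3 : Λ * (2 / (A * (1 - r)) + 2 / A) ≤ Λ * (4 / (A * (1 - r) ^ 2)) := by
        apply mul_le_mul_of_nonneg_left _ hΛ.le
        have : 4 / (A * (1 - r) ^ 2) = 2 / (A * (1 - r) ^ 2) + 2 / (A * (1 - r) ^ 2) := by ring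
        linarith
      have h4 : Λ * (4 / (A * (1 - r) ^ 2)) + b / (A * (1 - r) ^ 2) =
          (4 * Λ + b) / (A * (1 - r) ^ 2) := by ring
      have h5 : (4 * Λ + b) / (A * (1 - r) ^ 2) ≤ η := by
        rw [div_le_iff₀ (by positivity)]
        rw [div_le_iff₀ (by positivity)] at hAfr
        calc 4 * Λ + b ≤ A * (η * (1 - r) ^ 2) := hAfr
          _ = η * (A * (1 - r) ^ 2) := by ring
      linarith
    have hsplit : f₄ z - f z = (f (h v') - f z) + u ((r₃ : ℂ) * z) := by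
      show f (h (ρ * (r₃ * z))) + u (r₃ * z) - f z = _
      rw [← hv']; ring
    rw [hsplit]
    calc ‖(f (h v') - f z) + u ((r₃ : ℂ) * z)‖ ≤ ‖f (h v') - f z‖ + ‖u ((r₃ : ℂ) * z)‖ :=
          norm_add_le _ _
      _ ≤ _ := add_le_add hI hII
      _ ≤ η := hsum
  · -- the event
    have hexp : (T : ℝ) * (1 + d) ^ (-(T : ℝ)) ≤ 4 := by
      apply stl_exp hd0 hd1
      have : 200 / d * (1 + Real.log (1 / d)) = 2 * q := by rw [hq]; ring
      rw [this, hTr]; linarith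
    have hD0 : 0 < (1 + d) ^ (-(T : ℝ)) := Real.rpow_pos_of_pos (by linarith) _
    have hX : 1 ≤ d ^ (-γ') := by
      apply Real.one_le_rpow_of_pos_of_le_one_of_nonpos hd0 hd1; linarith
    have hTe : (T : ℝ) ^ e ≤ C₆ * d ^ (-γ') := by
      apply hpow d T hd0 hd1
      have h1 : 1 ≤ 1 / d * (1 + Real.log (1 / d)) := by
        have : 1 ≤ 1 / d := by rw [le_div_iff₀ hd0]; linarith
        exact one_le_mul_of_one_le_of_one_le this (by linarith)
      have h2 : q = 100 * (1 / d * (1 + Real.log (1 / d))) := by rw [hq]; ring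
      rw [hTr]
      set Y : ℝ := 1 / d * (1 + Real.log (1 / d)) with hY
      rw [h2] at hLq2
      exact ax8 hN1 h1 hLq2
    have hTa : (T : ℝ) * (T : ℝ) ^ α ≤ C₆ * d ^ (-γ') := by
      have h1 : (T : ℝ) * (T : ℝ) ^ α = (T : ℝ) ^ (1 + α) := by
        rw [Real.rpow_add hTpos, Real.rpow_one]
      rw [h1]
      exact (Real.rpow_le_rpow_of_exponent_le hT1 hαe).trans hTe
    set X : ℝ := d ^ (-γ') with hXdef
    have hIM3 : 1 / 2 * (K * X) ≤ IM h₂ 1 := by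
      refine le_trans ?_ hIM2
      have h1 : 1 / 2 ≤ ρ * 1 := by rw [hρd]; linarith
      have h2 : 0 ≤ K * X := by positivity
      calc 1 / 2 * (K * X) ≤ ρ * 1 * (K * X) := mul_le_mul_of_nonneg_right h1 h2
        _ ≤ ρ * 1 * IM h ρ := mul_le_mul_of_nonneg_left hIM.le (by positivity)
    -- coefficients of f₂, h₂
    have hcf₂ : ∀ n : ℕ, ‖tc f₂ n‖ ≤ b * (1 + d) ^ (-(n : ℝ)) := fun n =>
      Pool.Agent.Helper79.LT.tc_le hTcf d b f₂ n hd0 hf₂d hf₂b
    have hch₂ : ‖tc h₂ T‖ ≤ 1 * (1 + d) ^ (-(T : ℝ)) :=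
      Pool.Agent.Helper79.LT.tc_le hTcf d 1 h₂ T hd0 hh₂d hh₂b
    -- coefficients of v
    have hhv : tc (fun z => h₂ z + v z) T = tc h₂ T + tc v T :=
      tc_add hTcf (hh₂d.mono hball) (hvd.mono hball) T
    have hvT : 3 / 16000 / π * IM h₂ 1 - 8 ≤ (T : ℝ) * ‖tc v T‖ := by
      rw [hhv] at hTC
      have h1 : ‖tc h₂ T + tc v T‖ ≤ ‖tc h₂ T‖ + ‖tc v T‖ := norm_add_le _ _
      have h2 : (T : ℝ) * ‖tc h₂ T + tc v T‖ ≤ T * (1 * (1 + d) ^ (-(T : ℝ)) + ‖tc v T‖) :=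
        mul_le_mul_of_nonneg_left (by linarith) hTpos.le
      have h3 : (T : ℝ) * (1 * (1 + d) ^ (-(T : ℝ)) + ‖tc v T‖)
          = T * (1 + d) ^ (-(T : ℝ)) + T * ‖tc v T‖ := by ring
      have h4 : (T : ℝ) * 1 * (1 + d) ^ (-(T : ℝ)) = T * (1 + d) ^ (-(T : ℝ)) := by ring
      rw [h4] at hTC
      linarith
    -- coefficients of f₃
    have htc₃ : ∀ n : ℕ, tc f₃ n = tc f₂ n + (w : ℂ) * tc v n := by
      intro n
      rw [hf₃, tc_add hTcf (hf₂d.mono hball) (hud.mono hball) n, hu_def,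
        hTcd.2.2 v (w : ℂ) n (hvd.mono hball)]
    have hT3 : w * (3 / 16000 / π * IM h₂ 1 - 8) - 4 * b ≤ (T : ℝ) * ‖tc f₃ T‖ := by
      have h1 : ‖(w : ℂ) * tc v T‖ ≤ ‖tc f₃ T‖ + ‖tc f₂ T‖ := by
        have h2 : (w : ℂ) * tc v T = tc f₃ T - tc f₂ T := by rw [htc₃ T]; ring
        rw [h2]
        exact norm_sub_le _ _
      rw [norm_mul, Complex.norm_real, Real.norm_of_nonneg hw0.le] at h1
      have h2 := hcf₂ T
      have h3 : (T : ℝ) * (w * ‖tc v T‖) ≤ T * ‖tc f₃ T‖ + T * (b * (1 + d) ^ (-(T : ℝ))) := by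
        rw [← mul_add]
        exact mul_le_mul_of_nonneg_left (by linarith) hTpos.le
      have h4 : (T : ℝ) * (b * (1 + d) ^ (-(T : ℝ))) ≤ 4 * b := by
        calc (T : ℝ) * (b * (1 + d) ^ (-(T : ℝ))) = (T * (1 + d) ^ (-(T : ℝ))) * b := by ring
          _ ≤ 4 * b := mul_le_mul_of_nonneg_right hexp (by linarith)
      have h5 : w * (3 / 16000 / π * IM h₂ 1 - 8) ≤ w * (T * ‖tc v T‖) :=
        mul_le_mul_of_nonneg_left hvT hw0.le
      have h6 : w * ((T : ℝ) * ‖tc v T‖) = T * (w * ‖tc v T‖) := by ring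
      linarith
    have hmain : 2 * (((j : ℝ) + 1) * (C₆ * X)) + 16 * (((j : ℝ) + 1) * 2 ^ j * b) * X
        ≤ (T : ℝ) * ‖tc f₃ T‖ := by
      refine le_trans ?_ hT3
      have h1 : w * (3 / 16000 / π * (1 / 2 * (K * X))) = Q * X := by
        rw [hK]; field_simp
        ring
      have h2 := bx2 (I := 1 / 2 * (K * X)) (Y := w * (3 / 16000 / π * (1 / 2 * (K * X)) - 8)
        - 4 * b) (J := (j : ℝ) + 1) (C := C₆) (P := 2 ^ j) (b := b) hw0 hX (by linarith)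
        (by rw [h1, hQ]) (le_refl _)
      refine h2.trans ?_
      have h3 : 3 / 16000 / π * (1 / 2 * (K * X)) ≤ 3 / 16000 / π * IM h₂ 1 :=
        mul_le_mul_of_nonneg_left hIM3 (by positivity)
      have h4 : w * (3 / 16000 / π * (1 / 2 * (K * X)) - 8)
          ≤ w * (3 / 16000 / π * IM h₂ 1 - 8) :=
        mul_le_mul_of_nonneg_left (by linarith) hw0.le
      linarith
    have hP0 : 0 ≤ 16 * (((j : ℝ) + 1) * 2 ^ j * b) := by positivity
    have hmainA : 2 * (((j : ℝ) + 1) * (C₆ * X)) ≤ (T : ℝ) * ‖tc f₃ T‖ := by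
      have : 0 ≤ 16 * (((j : ℝ) + 1) * 2 ^ j * b) * X := by positivity
      linarith
    have hmainB : 16 * (((j : ℝ) + 1) * 2 ^ j * b) ≤ (T : ℝ) * ‖tc f₃ T‖ := by
      have h1 : 16 * (((j : ℝ) + 1) * 2 ^ j * b) ≤ 16 * (((j : ℝ) + 1) * 2 ^ j * b) * X :=
        le_mul_of_one_le_right hP0 hX
      have h2 : 0 ≤ 2 * (((j : ℝ) + 1) * (C₆ * X)) := by positivity
      linarith
    -- coefficients of f₄
    have htc₄ : ∀ n : ℕ, ‖tc f₄ n‖ = r₃ ^ n * ‖tc f₃ n‖ := by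
      intro n
      have h1 : tc f₄ n = (r₃ : ℂ) ^ n * tc f₃ n :=
        hTcd.2.1 f₃ r₃ n hr₃0 hr₃1.le (hf₃d.mono hball)
      rw [h1, norm_mul, norm_pow, Complex.norm_real, Real.norm_of_nonneg hr₃0.le]
    have hhalf : 1 / 2 * ((T : ℝ) * ‖tc f₃ T‖) ≤ T * ‖tc f₄ T‖ := by
      rw [htc₄ T]
      have h1 : 0 ≤ (T : ℝ) * ‖tc f₃ T‖ := by positivity
      calc 1 / 2 * ((T : ℝ) * ‖tc f₃ T‖) ≤ r₃ ^ T * ((T : ℝ) * ‖tc f₃ T‖) :=
            mul_le_mul_of_nonneg_right hr₃T h1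
        _ = T * (r₃ ^ T * ‖tc f₃ T‖) := by ring
    apply qi_rob hTcf (hf₄d.mono hball₃) hTj
    · have h2 : ((j : ℝ) + 1) * ((T : ℝ) * (T : ℝ) ^ α) ≤ ((j : ℝ) + 1) * (C₆ * X) :=
        mul_le_mul_of_nonneg_left hTa (by positivity)
      have hfin : (T : ℝ) * (((j : ℝ) + 1) * (T : ℝ) ^ α) ≤ T * ‖tc f₄ T‖ := by
        calc (T : ℝ) * (((j : ℝ) + 1) * (T : ℝ) ^ α) = ((j : ℝ) + 1) * ((T : ℝ) * (T : ℝ) ^ α) := by
              ring
          _ ≤ ((j : ℝ) + 1) * (C₆ * X) := h2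
          _ ≤ 1 / 2 * ((T : ℝ) * ‖tc f₃ T‖) := by linarith
          _ ≤ T * ‖tc f₄ T‖ := hhalf
      exact le_of_mul_le_mul_left hfin hTpos
    · intro n hn hn1 hn2
      have hvn : tc v n = 0 := tc_zero hN hvS hTN hn (by omega) (by omega)
      have h3n : tc f₃ n = tc f₂ n := by rw [htc₃ n, hvn, mul_zero, add_zero]
      have h4n : ‖tc f₄ n‖ ≤ b * (1 + d) ^ (-(n : ℝ)) := by
        rw [htc₄ n, h3n]
        calc r₃ ^ n * ‖tc f₂ n‖ ≤ 1 * ‖tc f₂ n‖ :=
              mul_le_mul_of_nonneg_right (pow_le_one₀ hr₃0.le hr₃1.le) (norm_nonneg _)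
          _ ≤ _ := by rw [one_mul]; exact hcf₂ n
      have h5n : (1 + d) ^ (-(n : ℝ)) ≤ 2 ^ j * (1 + d) ^ (-(T : ℝ)) := by
        have e1 : (1 + d) ^ (-(n : ℝ)) = (1 + d) ^ ((T : ℝ) - n) * (1 + d) ^ (-(T : ℝ)) := by
          rw [← Real.rpow_add (by linarith)]; congr 1; ring
        rw [e1]
        apply mul_le_mul_of_nonneg_right _ hD0.le
        have e2 : (T : ℝ) - n ≤ j := by
          have : (T : ℝ) ≤ n + j := by exact_mod_cast hn1
          linarith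
        calc (1 + d) ^ ((T : ℝ) - n) ≤ (1 + d) ^ (j : ℝ) :=
              Real.rpow_le_rpow_of_exponent_le (by linarith) e2
          _ = (1 + d) ^ j := Real.rpow_natCast _ _
          _ ≤ 2 ^ j := pow_le_pow_left₀ (by linarith) (by linarith) j
      have h6n : (T : ℝ) * ‖tc f₄ n‖ ≤ 4 * (2 ^ j * b) := by
        calc (T : ℝ) * ‖tc f₄ n‖ ≤ T * (b * (2 ^ j * (1 + d) ^ (-(T : ℝ)))) :=
              mul_le_mul_of_nonneg_left
                (h4n.trans (mul_le_mul_of_nonneg_left h5n (by linarith))) hTpos.le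
          _ = (T * (1 + d) ^ (-(T : ℝ))) * (2 ^ j * b) := by ring
          _ ≤ 4 * (2 ^ j * b) := mul_le_mul_of_nonneg_right hexp (by positivity)
      have hfin : (T : ℝ) * (2 * ((j : ℝ) + 1) * ‖tc f₄ n‖) ≤ T * ‖tc f₄ T‖ := by
        calc (T : ℝ) * (2 * ((j : ℝ) + 1) * ‖tc f₄ n‖)
            = 2 * ((j : ℝ) + 1) * ((T : ℝ) * ‖tc f₄ n‖) := by ring
          _ ≤ 2 * ((j : ℝ) + 1) * (4 * (2 ^ j * b)) :=
              mul_le_mul_of_nonneg_left h6n (by positivity)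
          _ = 1 / 2 * (16 * (((j : ℝ) + 1) * 2 ^ j * b)) := by ring
          _ ≤ 1 / 2 * ((T : ℝ) * ‖tc f₃ T‖) := by linarith
          _ ≤ T * ‖tc f₄ T‖ := hhalf
      exact le_of_mul_le_mul_left hfin hTpos

end Pool.Agent.Helper38.UB
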