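import Pool.Agent.Helper38.UB.Base
import Pool.Agent.Helper76.LT.M_STL
import Pool.Agent.Helper79.LT.M_CJC

/-!
# Isolated large coefficients: Taylor coefficients
-/

set_option autoImplicit false

namespace Pool.Agent.Helper38.UB

open Complex MeasureTheory Set Metric Filter Topology
open scoped Real ENNReal
open Pool.Agent.Helper60.Rel (tc ClassS)
open Pool.Agent.Helper51.LT

theorem tc_add (hTcf : StTcf) {F G : ℂ → ℂ} (hF : DifferentiableOn ℂ F (ball 0 1))
    (hG : DifferentiableOn ℂ G (ball 0 1)) (n : ℕ) :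
    tc (fun z => F z + G z) n = tc F n + tc G n := by
  have hFG : DifferentiableOn ℂ (fun z => F z + G z) (ball 0 1) := hF.add hG
  rw [Pool.Agent.Helper61.LT.tcf_half hTcf hFG, Pool.Agent.Helper61.LT.tcf_half hTcf hF,
    Pool.Agent.Helper61.LT.tcf_half hTcf hG, ← mul_add,
    ← intervalIntegral.integral_add
      (Pool.Agent.Helper61.LT.cm_int (by norm_num) (by norm_num) n hF)
      (Pool.Agent.Helper61.LT.cm_int (by norm_num) (by norm_num) n hG)]
  congr 1
  apply intervalIntegral.integral_congr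
  intro t _
  change (F _ + G _) * _ = _
  rw [add_mul]

/-- derivatives of a symmetric function -/
theorem iter_sym {f : ℂ → ℂ} {ω : ℂ}
    (h : ∀ z ∈ ball (0 : ℂ) 1, f (ω * z) = ω * f z) (n : ℕ) :
    ∀ z ∈ ball (0 : ℂ) 1, iteratedDeriv n f (ω * z) * ω ^ n = ω * iteratedDeriv n f z := by
  induction n with
  | zero =>
    intro z hz
    simpa using h z hz
  | succ n ih =>
    intro z hz
    have he : (fun z => iteratedDeriv n f (ω * z) * ω ^ n) =ᶠ[𝓝 z]
        (fun z => ω * iteratedDeriv n f z) := by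
      filter_upwards [isOpen_ball.mem_nhds hz] with w hw
      exact ih w hw
    have h1 := he.deriv_eq
    rw [deriv_mul_const_field, deriv_const_mul_field, deriv_comp_mul_left ω (iteratedDeriv n f) z] at h1
    rw [iteratedDeriv_succ, pow_succ, ← h1, smul_eq_mul]
    ring

theorem root_of_tc {f : ℂ → ℂ} {N : ℕ} (hs : Sy N f) {ω : ℂ}
    (hω : ω ^ N = 1) {n : ℕ} (hn : tc f n ≠ 0) : ω ^ n = ω := by
  have h0 := iter_sym (fun z hz => hs ω z hω hz) n 0 (by simp)
  rw [mul_zero] at h0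
  have hne : iteratedDeriv n f 0 ≠ 0 := by
    intro h
    apply hn
    simp [tc, h]
  have h1 : iteratedDeriv n f 0 * ω ^ n = iteratedDeriv n f 0 * ω := by
    rw [h0]; ring
  exact mul_left_cancel₀ hne h1

/-- coefficients of a symmetric function next to an index `≡ 1` vanish -/
theorem tc_zero {f : ℂ → ℂ} {N T n : ℕ} (hN : 1 ≤ N) (hs : Sy N f) (hT : T % N = 1 % N)
    (hn : n ≠ T) (h1 : T < n + N) (h2 : n < T + N) : tc f n = 0 := by
  by_contra hne
  have hprim := Complex.isPrimitiveRoot_exp N (by omega)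
  set ω : ℂ := Complex.exp (2 * π * I / (N : ℂ)) with hωdef
  have hωN : ω ^ N = 1 := hprim.pow_eq_one
  have hω0 : ω ≠ 0 := Complex.exp_ne_zero _
  have hn1 : ω ^ n = ω := root_of_tc hs hωN hne
  have hT1 : ω ^ T = ω := by
    have : ω ^ T = ω ^ (T % N) := by
      conv_lhs => rw [← Nat.div_add_mod T N, pow_add, pow_mul, hωN, one_pow, one_mul]
    rw [this, hT]
    have : ω ^ 1 = ω ^ (1 % N) := by
      conv_lhs => rw [← Nat.div_add_mod 1 N, pow_add, pow_mul, hωN, one_pow, one_mul]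
    rw [← this, pow_one]
  rcases Nat.lt_or_ge n T with h | h
  · have h3 : ω ^ (T - n) = 1 := by
      have h4 : ω ^ n * ω ^ (T - n) = ω ^ T := by
        rw [← pow_add]; congr 1; omega
      rw [hn1, hT1] at h4
      exact mul_left_cancel₀ hω0 (by rw [h4, mul_one])
    have h5 := Nat.le_of_dvd (by omega) ((hprim.pow_eq_one_iff_dvd (T - n)).1 h3)
    omega
  · have h3 : ω ^ (n - T) = 1 := by
      have h4 : ω ^ T * ω ^ (n - T) = ω ^ n := by
        rw [← pow_add]; congr 1; omega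
      rw [hn1, hT1] at h4
      exact mul_left_cancel₀ hω0 (by rw [h4, mul_one])
    have h5 := Nat.le_of_dvd (by omega) ((hprim.pow_eq_one_iff_dvd (n - T)).1 h3)
    omega

/-- the perturbation is bounded by one -/
theorem u_bound {d : ℝ} {L : ℕ} {g u : ℂ → ℂ} {p : ℂ → ℂ} (hd : 0 < d)
    (hg : DifferentiableOn ℂ g (ball 0 (1 + d))) (hgb : ∀ z ∈ ball (0 : ℂ) (1 + d), ‖g z‖ ≤ 1)
    (hLd : 1 ≤ (L : ℝ) * d) (hp : ∀ z : ℂ, ‖z‖ ≤ 1 → ‖p z‖ ≤ 5 / 4) (hu0 : u 0 = 0)
    (hu : ∀ z ∈ ball (0 : ℂ) (1 + d), HasDerivAt u (1 / 2000 * deriv g z * z ^ L * p z) z)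
    {z : ℂ} (hz : ‖z‖ ≤ 1) : ‖u z‖ ≤ 1 := by
  have hder : ∀ w : ℂ, ‖w‖ ≤ 1 → ‖deriv g w‖ ≤ 2 / d := by
    intro w hw
    have hsub : closedBall w (d / 2) ⊆ ball 0 (1 + d) := by
      intro y hy
      rw [mem_closedBall, dist_eq_norm] at hy
      rw [mem_ball, dist_zero_right]
      have h1 : ‖y‖ ≤ ‖y - w‖ + ‖w‖ := by
        have := norm_add_le (y - w) w
        simpa using this
      linarith
    have h2 := Complex.norm_deriv_le_of_forall_mem_sphere_norm_le (c := w) (R := d / 2) (C := 1)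
      (f := g) (by positivity) (by
        apply DifferentiableOn.diffContOnCl
        rw [closure_ball w (by positivity)]
        exact hg.mono hsub) (fun y hy => hgb y (hsub (sphere_subset_closedBall hy)))
    have h3 : (1 : ℝ) / (d / 2) = 2 / d := by field_simp
    rwa [h3] at h2
  have hmem : ∀ t : ℝ, t ∈ Icc (0 : ℝ) 1 → ((t : ℂ) * z) ∈ ball (0 : ℂ) (1 + d) ∧
      ‖(t : ℂ) * z‖ ≤ 1 ∧ ‖(t : ℂ) * z‖ ≤ t := by
    intro t ht
    have h1 : ‖(t : ℂ) * z‖ = t * ‖z‖ := by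
      rw [norm_mul, Complex.norm_real, Real.norm_of_nonneg ht.1]
    have h2 : t * ‖z‖ ≤ t := mul_le_of_le_one_right ht.1 hz
    refine ⟨?_, ?_, ?_⟩
    · rw [mem_ball, dist_zero_right, h1]; linarith [ht.2]
    · rw [h1]; linarith [ht.2]
    · rw [h1]; exact h2
  have hF : ∀ t : ℝ, t ∈ Icc (0 : ℝ) 1 → HasDerivAt (fun t : ℝ => u ((t : ℂ) * z))
      ((1 / 2000 * deriv g ((t : ℂ) * z) * ((t : ℂ) * z) ^ L * p ((t : ℂ) * z)) * z) t := by
    intro t ht
    have h1 := hu _ (hmem t ht).1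
    have h2 : HasDerivAt (fun s : ℂ => s * z) (1 * z) ((t : ℝ) : ℂ) :=
      (hasDerivAt_id ((t : ℝ) : ℂ)).mul_const z
    have h3 : HasDerivAt (fun s : ℂ => u (s * z))
        ((1 / 2000 * deriv g ((t : ℂ) * z) * ((t : ℂ) * z) ^ L * p ((t : ℂ) * z)) * (1 * z))
        ((t : ℝ) : ℂ) := HasDerivAt.comp ((t : ℝ) : ℂ) h1 h2
    rw [one_mul] at h3
    exact h3.comp_ofReal
  have hL0 : (0 : ℝ) < (L : ℝ) + 1 := by positivity
  have hmain := image_norm_le_of_norm_deriv_right_le_deriv_boundary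
    (f := fun t : ℝ => u ((t : ℂ) * z)) (a := 0) (b := 1)
    (f' := fun t => (1 / 2000 * deriv g ((t : ℂ) * z) * ((t : ℂ) * z) ^ L * p ((t : ℂ) * z)) * z)
    (B := fun t => (1 / 1600 * (2 / d)) * (t ^ (L + 1) / ((L : ℝ) + 1)))
    (B' := fun t => (1 / 1600 * (2 / d)) * t ^ L)
    (fun t ht => (hF t ht).continuousAt.continuousWithinAt)
    (fun t ht => (hF t ⟨ht.1, ht.2.le⟩).hasDerivWithinAt)
    (by
      simp only [ofReal_zero, zero_mul, hu0, norm_zero]
      positivity)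
    (fun t => by
      have h1 : HasDerivAt (fun t : ℝ => t ^ (L + 1)) (((L + 1 : ℕ) : ℝ) * t ^ L) t := by
        simpa using hasDerivAt_pow (L + 1) t
      have h2 := (h1.div_const ((L : ℝ) + 1)).const_mul (1 / 1600 * (2 / d))
      refine h2.congr_deriv ?_
      push_cast
      field_simp)
    (fun t ht => by
      have htI : t ∈ Icc (0 : ℝ) 1 := ⟨ht.1, ht.2.le⟩
      obtain ⟨-, h1, h2⟩ := hmem t htI
      have e1 : ‖(1 / 2000 : ℂ)‖ = 1 / 2000 := by
        rw [norm_div, norm_one, Complex.norm_ofNat]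
      rw [norm_mul, norm_mul, norm_mul, norm_mul, norm_pow, e1]
      have h3 := hder _ h1
      have h4 := hp _ h1
      have h5 : ‖(t : ℂ) * z‖ ^ L ≤ t ^ L := pow_le_pow_left₀ (norm_nonneg _) h2 L
      have h6 : 0 ≤ t ^ L := pow_nonneg ht.1 L
      calc 1 / 2000 * ‖deriv g ((t : ℂ) * z)‖ * ‖(t : ℂ) * z‖ ^ L * ‖p ((t : ℂ) * z)‖ * ‖z‖
          ≤ 1 / 2000 * (2 / d) * t ^ L * (5 / 4) * 1 := by
            gcongr
        _ = 1 / 1600 * (2 / d) * t ^ L := by ring)
    (x := 1) ⟨zero_le_one, le_refl _⟩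
  simp only [ofReal_one, one_mul, one_pow] at hmain
  refine hmain.trans ?_
  have h1 : 1 / 1600 * (2 / d) * (1 / ((L : ℝ) + 1)) = 1 / (800 * (d * ((L : ℝ) + 1))) := by
    field_simp
    ring
  rw [h1, div_le_one (by positivity)]
  nlinarith

end Pool.Agent.Helper38.UB
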